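import Mathlib
set_option autoImplicit false

namespace Pool.Agent.H4.Chain

variable {G : ℕ → Type} [∀ k, Group (G k)] (φ : ∀ k, G k →* G (k + 1))

/-- composite maps -/
def fm (i j : ℕ) (h : i ≤ j) : G i →* G j :=
  Nat.leRec (motive := fun j _ => G i →* G j) (MonoidHom.id _) (fun k _ ih => (φ k).comp ih) h

lemma fm_self (i : ℕ) (h : i ≤ i) (x : G i) : fm φ i i h x = x := by
  unfold fm
  rw [Nat.leRec_self]
  rfl

lemma fm_succ (i j : ℕ) (h : i ≤ j) (h' : i ≤ j + 1) (x : G i) :
    fm φ i (j + 1) h' x = φ j (fm φ i j h x) := by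
  unfold fm
  rw [Nat.leRec_succ (h1 := h)]
  rfl

lemma fm_trans (i j : ℕ) (h : i ≤ j) (k : ℕ) (h' : j ≤ k) (x : G i) :
    fm φ j k h' (fm φ i j h x) = fm φ i k (h.trans h') x := by
  induction k, h' using Nat.le_induction with
  | base => rw [fm_self]
  | succ k hk ih => rw [fm_succ φ j k hk, ih, fm_succ φ i k (h.trans hk)]

lemma fm_inj (hφ : ∀ k, Function.Injective (φ k)) (i j : ℕ) (h : i ≤ j) :
    Function.Injective (fm φ i j h) := by
  induction j, h using Nat.le_induction with
  | base =>
    intro x y hxy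
    rwa [fm_self, fm_self] at hxy
  | succ k hk ih =>
    intro x y hxy
    rw [fm_succ φ i k hk, fm_succ φ i k hk] at hxy
    exact ih (hφ k hxy)

instance : DirectedSystem G (fun i j h => (fm φ i j h : G i → G j)) where
  map_self := fun i x => fm_self φ i _ x
  map_map := fun i j k hij hjk x => fm_trans φ _ _ _ _ _ x

/-- the union of a chain of groups -/
theorem chain_limit (hφ : ∀ k, Function.Injective (φ k)) :
    ∃ (L : Type) (_ : Group L) (o : ∀ k, G k →* L), (∀ k, Function.Injective (o k)) ∧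
      (∀ k g, o (k + 1) (φ k g) = o k g) ∧ (∀ x, ∃ k g, o k g = x) := by
  let L : Type := DirectLimit G (fun i j h => fm φ i j h)
  let o : ∀ k, G k →* L := fun k =>
    { toFun := fun g => ⟦⟨k, g⟩⟧
      map_one' := (DirectLimit.one_def k).symm
      map_mul' := fun x y => (DirectLimit.mul_def k x y).symm }
  refine ⟨L, inferInstance, o, ?_, ?_, ?_⟩
  · intro k
    exact DirectLimit.mk_injective (fun i j h => fm φ i j h) (fm_inj φ hφ) k
  · intro k g
    have h := DirectLimit.mk_apply (f := fun i j h => fm φ i j h) k (k + 1) g (Nat.le_succ k)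
    rw [fm_succ φ k k le_rfl, fm_self] at h
    exact h
  · intro x
    obtain ⟨k, g, h⟩ := DirectLimit.exists_eq_mk (fun i j h => fm φ i j h) x
    exact ⟨k, g, h.symm⟩

end Pool.Agent.H4.Chain
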