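import Mathlib

set_option autoImplicit false

namespace Pool.Agent.H4.MinNonF

/-- extraspecial group of order 27 and exponent 3 -/
@[ext] structure E where
  x : ZMod 3
  y : ZMod 3
  z : ZMod 3
deriving DecidableEq, Fintype

namespace E
instance : Mul E := ⟨fun a b => ⟨a.x + b.x, a.y + b.y, a.z + b.z + (a.x * b.y - a.y * b.x)⟩⟩
instance : One E := ⟨⟨0, 0, 0⟩⟩
instance : Inv E := ⟨fun a => ⟨-a.x, -a.y, -a.z⟩⟩

@[simp] lemma mul_x (a b : E) : (a * b).x = a.x + b.x := rfl
@[simp] lemma mul_y (a b : E) : (a * b).y = a.y + b.y := rfl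
@[simp] lemma mul_z (a b : E) : (a * b).z = a.z + b.z + (a.x * b.y - a.y * b.x) := rfl
@[simp] lemma one_x : (1 : E).x = 0 := rfl
@[simp] lemma one_y : (1 : E).y = 0 := rfl
@[simp] lemma one_z : (1 : E).z = 0 := rfl
@[simp] lemma inv_x (a : E) : (a⁻¹).x = -a.x := rfl
@[simp] lemma inv_y (a : E) : (a⁻¹).y = -a.y := rfl
@[simp] lemma inv_z (a : E) : (a⁻¹).z = -a.z := rfl

instance : Group E :=
  Group.ofLeftAxioms
    (by
      intro a b c
      ext <;> simp <;> ring)
    (by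
      intro a
      ext <;> simp)
    (by
      intro a
      ext <;> simp <;> ring)

/-- the automorphism of order 8 -/
def rho : E ≃* E where
  toFun a := ⟨a.y, a.x + a.y, -a.z⟩
  invFun a := ⟨a.y - a.x, a.x, -a.z⟩
  left_inv a := by ext <;> simp
  right_inv a := by ext <;> simp
  map_mul' a b := by
    ext <;> simp <;> ring

/-- powers of rho indexed by ZMod 8 -/
def R (i : ZMod 8) : MulAut E := rho ^ i.val

lemma rho_eight : (rho : MulAut E) ^ 8 = 1 := by
  have h : ∀ a : E, ((rho : MulAut E) ^ 8) a = a := by decide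
  exact MulEquiv.ext h

lemma R_add (i k : ZMod 8) : R (i + k) = R i * R k := by
  unfold R
  rw [ZMod.val_add, ← pow_add]
  exact (pow_eq_pow_mod _ rho_eight).symm

end E

/-- modular group of order 16 -/
@[ext] structure M16 where
  i : ZMod 8
  j : ZMod 2
deriving DecidableEq, Fintype

/-- multiplication by 5 iff j is nonzero -/
def tw (j : ZMod 2) (k : ZMod 8) : ZMod 8 := if j = 0 then k else 5 * k

namespace M16
instance : Mul M16 := ⟨fun a b => ⟨a.i + tw a.j b.i, a.j + b.j⟩⟩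
instance : One M16 := ⟨⟨0, 0⟩⟩
instance : Inv M16 := ⟨fun a => ⟨- tw a.j a.i, a.j⟩⟩

instance : Group M16 :=
  Group.ofLeftAxioms
    (by
      have h1 : ∀ (u v : ZMod 2) (k : ZMod 8), tw u (tw v k) = tw (u + v) k := by decide
      have h2 : ∀ (u : ZMod 2) (k l : ZMod 8), tw u (k + l) = tw u k + tw u l := by decide
      intro a b c
      apply M16.ext
      · show a.i + tw a.j b.i + tw (a.j + b.j) c.i = a.i + tw a.j (b.i + tw b.j c.i)
        rw [h2, h1, add_assoc]
      · show a.j + b.j + c.j = a.j + (b.j + c.j)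
        rw [add_assoc])
    (by
      intro a
      apply M16.ext
      · show 0 + tw 0 a.i = a.i
        simp [tw]
      · show 0 + a.j = a.j
        simp)
    (by
      have h1 : ∀ (u : ZMod 2) (k : ZMod 8), - tw u k + tw u k = 0 := by decide
      have h2 : ∀ (u : ZMod 2), u + u = 0 := by decide
      intro a
      apply M16.ext
      · exact h1 _ _
      · exact h2 _)

/-- alpha -/
def al : M16 := ⟨1, 0⟩
/-- sigma -/
def si : M16 := ⟨0, 1⟩
/-- the commutator -/
def ze : M16 := ⟨4, 0⟩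

set_option maxRecDepth 100000 in
lemma gen_al : ∀ g h : M16, g * h ≠ h * g → ∃ a b c : Fin 8, g ^ (a : ℕ) * h ^ (b : ℕ) * g ^ (c : ℕ) = al := by
  decide +kernel

set_option maxRecDepth 100000 in
lemma gen_si : ∀ g h : M16, g * h ≠ h * g → ∃ a b c : Fin 8, g ^ (a : ℕ) * h ^ (b : ℕ) * g ^ (c : ℕ) = si := by
  decide +kernel

lemma gen_all : ∀ g : M16, g = al ^ g.i.val * si ^ g.j.val := by
  decide +kernel

lemma comm_ze : ∀ g h : M16, g * h * g⁻¹ * h⁻¹ = 1 ∨ g * h * g⁻¹ * h⁻¹ = ze := by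
  decide +kernel

end M16

/-- diagonal part -/
def D (k : ZMod 8) : MulAut (E × E) := MulEquiv.prodCongr (E.R k) (E.R (5 * k))
/-- swap part -/
def sw (u : ZMod 2) : MulAut (E × E) := if u = 0 then 1 else MulEquiv.prodComm

lemma D_add (i k : ZMod 8) : D (i + k) = D i * D k := by
  apply MulEquiv.ext
  rintro ⟨e1, e2⟩
  apply Prod.ext
  · show E.R (i + k) e1 = E.R i (E.R k e1)
    rw [E.R_add]; rfl
  · show E.R (5 * (i + k)) e2 = E.R (5 * i) (E.R (5 * k) e2)
    rw [mul_add, E.R_add]; rfl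

lemma z2 (u : ZMod 2) : u = 0 ∨ u = 1 := by
  revert u; decide

lemma sw_add (u v : ZMod 2) : sw (u + v) = sw u * sw v := by
  rcases z2 u with rfl | rfl <;> rcases z2 v with rfl | rfl
  · rfl
  · rfl
  · rfl
  · apply MulEquiv.ext
    rintro ⟨e1, e2⟩
    rfl

lemma sw_D (u : ZMod 2) (k : ZMod 8) : sw u * D k = D (tw u k) * sw u := by
  rcases z2 u with rfl | rfl
  · rfl
  · apply MulEquiv.ext
    rintro ⟨e1, e2⟩
    apply Prod.ext
    · show E.R (5 * k) e2 = E.R (5 * k) e2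
      rfl
    · show E.R k e1 = E.R (5 * (5 * k)) e1
      have : ∀ k : ZMod 8, 5 * (5 * k) = k := by decide
      rw [this]

/-- the action -/
def phi : M16 →* MulAut (E × E) where
  toFun m := D m.i * sw m.j
  map_one' := by
    apply MulEquiv.ext
    rintro ⟨e1, e2⟩
    rfl
  map_mul' a b := by
    show D (a.i + tw a.j b.i) * sw (a.j + b.j) = D a.i * sw a.j * (D b.i * sw b.j)
    rw [D_add, sw_add, mul_assoc, ← mul_assoc (D (tw a.j b.i)), ← sw_D]
    simp only [mul_assoc]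

/-- the group -/
abbrev G : Type := (E × E) ⋊[phi] M16

instance : Finite G := Finite.of_equiv _ (SemidirectProduct.equivProd (φ := phi)).symm

/-- the vector part -/
abbrev V : Type := (ZMod 3 × ZMod 3) × (ZMod 3 × ZMod 3)
/-- the vector part of an element -/
def vp (p : E × E) : V := ((p.1.x, p.1.y), (p.2.x, p.2.y))

lemma vp_mul (p q : E × E) : vp (p * q) = vp p + vp q := rfl
lemma vp_one : vp 1 = 0 := rfl
lemma vp_inv (p : E × E) : vp (p⁻¹) = - vp p := rfl

lemma E_central (a b : E) (hx : a.x = 0) (hy : a.y = 0) : b * a = a * b := by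
  ext <;> simp [hx, hy, add_comm]

lemma central (p q : E × E) (h : vp p = 0) : q * p = p * q := by
  have h1 : p.1.x = 0 := congrArg (fun v : V => v.1.1) h
  have h2 : p.1.y = 0 := congrArg (fun v : V => v.1.2) h
  have h3 : p.2.x = 0 := congrArg (fun v : V => v.2.1) h
  have h4 : p.2.y = 0 := congrArg (fun v : V => v.2.2) h
  exact Prod.ext (E_central _ _ h1 h2) (E_central _ _ h3 h4)

lemma R4 : ∀ a : E, E.R 4 a = ⟨-a.x, -a.y, a.z⟩ := by decide
lemma R1 : ∀ a : E, E.R 1 a = ⟨a.y, a.x + a.y, -a.z⟩ := by decide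
lemma R5 : ∀ a : E, E.R 5 a = ⟨-a.y, -a.x - a.y, -a.z⟩ := by decide
lemma R0 : ∀ a : E, E.R 0 a = a := by decide

lemma phi_ze (p : E × E) : phi M16.ze p = (⟨-p.1.x, -p.1.y, p.1.z⟩, ⟨-p.2.x, -p.2.y, p.2.z⟩) := by
  apply Prod.ext
  · exact R4 p.1
  · exact R4 p.2

lemma phi_ze_W (p : E × E) (h : vp p = 0) : phi M16.ze p = p := by
  have h1 : p.1.x = 0 := congrArg (fun v : V => v.1.1) h
  have h2 : p.1.y = 0 := congrArg (fun v : V => v.1.2) h
  have h3 : p.2.x = 0 := congrArg (fun v : V => v.2.1) h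
  have h4 : p.2.y = 0 := congrArg (fun v : V => v.2.2) h
  rw [phi_ze]
  apply Prod.ext <;> ext <;> simp [h1, h2, h3, h4]

/-- action of alpha on vectors -/
def av (v : V) : V := ((v.1.2, v.1.1 + v.1.2), (-v.2.2, -v.2.1 - v.2.2))
/-- action of sigma on vectors -/
def sv (v : V) : V := (v.2, v.1)

lemma vp_al (p : E × E) : vp (phi M16.al p) = av (vp p) := by
  have h1 : (phi M16.al p).1 = E.R 1 p.1 := rfl
  have h2 : (phi M16.al p).2 = E.R 5 p.2 := rfl
  unfold vp
  rw [h1, h2, R1, R5]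
  rfl

lemma vp_si (p : E × E) : vp (phi M16.si p) = sv (vp p) := by
  have h1 : (phi M16.si p).1 = E.R 0 p.2 := rfl
  have h2 : (phi M16.si p).2 = E.R 0 p.1 := rfl
  unfold vp
  rw [h1, h2, R0, R0]
  rfl

/-- action on one plane -/
def hv (w : ZMod 3 × ZMod 3) : ZMod 3 × ZMod 3 := (-w.2, -w.1 - w.2)

lemma hv_span : ∀ w u : ZMod 3 × ZMod 3, w ≠ 0 → ∃ c d : Fin 3,
    u = (c : ℕ) • w + (d : ℕ) • hv w := by
  decide +kernel

lemma hv_ne : ∀ w : ZMod 3 × ZMod 3, w ≠ 0 → hv w ≠ 0 := by decide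

lemma av_poly (v : V) : av (av v) - av v - v = (0, hv v.2) := by
  revert v
  decide +kernel

lemma irred (X : AddSubgroup V) (ha : ∀ v ∈ X, av v ∈ X) (hs : ∀ v ∈ X, sv v ∈ X)
    (v : V) (hv0 : v ∈ X) (hne : v ≠ 0) (u : V) : u ∈ X := by
  have step : ∀ v ∈ X, v.2 ≠ 0 → ∀ u2 : ZMod 3 × ZMod 3, ((0, u2) : V) ∈ X := by
    intro v hv0 hv2 u2
    have h1 : ((0, hv v.2) : V) ∈ X := by
      rw [← av_poly]
      exact X.sub_mem (X.sub_mem (ha _ (ha _ hv0)) (ha _ hv0)) hv0
    have h2 : ((0, hv (hv v.2)) : V) ∈ X := by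
      have h3 := ha _ h1
      have h4 : av ((0, hv v.2) : V) = (0, hv (hv v.2)) := by
        unfold av hv
        simp
      rw [← h4]
      exact h3
    obtain ⟨c, d, hcd⟩ := hv_span (hv v.2) u2 (hv_ne _ hv2)
    have h5 : ((0, u2) : V) = (c : ℕ) • ((0, hv v.2) : V) + (d : ℕ) • ((0, hv (hv v.2)) : V) := by
      rw [hcd]
      simp
    rw [h5]
    exact X.add_mem (X.nsmul_mem h1 _) (X.nsmul_mem h2 _)
  have hall : ∀ u2 : ZMod 3 × ZMod 3, ((0, u2) : V) ∈ X := by
    by_cases h2 : v.2 = 0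
    · have h1 : v.1 ≠ 0 := by
        intro h1
        exact hne (Prod.ext h1 h2)
      exact step (sv v) (hs v hv0) h1
    · exact step v hv0 h2
  have h6 : u = sv ((0, u.1) : V) + ((0, u.2) : V) := by
    unfold sv
    simp
  rw [h6]
  exact X.add_mem (hs _ (hall _)) (hall _)

instance : Group.IsNilpotent E := by
  let f : E →* Multiplicative (ZMod 3 × ZMod 3) :=
    { toFun := fun a => Multiplicative.ofAdd (a.x, a.y)
      map_one' := rfl
      map_mul' := fun a b => rfl }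
  apply Subgroup.isNilpotent_of_ker_le_center f
  intro a ha
  have h : ((a.x, a.y) : ZMod 3 × ZMod 3) = (0, 0) := ha
  rw [Subgroup.mem_center_iff]
  intro g
  exact E_central a g (congrArg Prod.fst h) (congrArg Prod.snd h)

instance : Group.IsNilpotent M16 := by
  have h : IsPGroup 2 M16 := by
    apply IsPGroup.of_card (n := 4)
    rw [Nat.card_eq_fintype_card]
    decide +kernel
  exact h.isNilpotent

end Pool.Agent.H4.MinNonF
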