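import Mathlib

set_option autoImplicit false

namespace Pool.Agent.H4.NilDer

open Subgroup

/-- the class of groups with nilpotent derived subgroup -/
def ND (H : Type) [Group H] : Prop := Group.IsNilpotent (commutator H)

lemma map_comm_le {A B : Type} [Group A] [Group B] (f : A →* B) :
    (commutator A).map f ≤ commutator B := by
  rw [commutator_def, commutator_def, Subgroup.map_commutator]
  exact Subgroup.commutator_mono le_top le_top

/-- the induced map on derived subgroups -/
def cm {A B : Type} [Group A] [Group B] (f : A →* B) : commutator A →* commutator B :=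
  (f.comp (commutator A).subtype).codRestrict (commutator B)
    (fun x => map_comm_le f ⟨x.1, x.2, rfl⟩)

lemma cm_coe {A B : Type} [Group A] [Group B] (f : A →* B) (x : commutator A) :
    ((cm f x : commutator B) : B) = f (x : A) := rfl

lemma cm_surj {A B : Type} [Group A] [Group B] (f : A →* B) (hf : Function.Surjective f) :
    Function.Surjective (cm f) := by
  rintro ⟨y, hy⟩
  have h : (commutator A).map f = commutator B := by
    rw [commutator_def, commutator_def, Subgroup.map_commutator,
      Subgroup.map_top_of_surjective f hf]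
  rw [← h] at hy
  obtain ⟨x, hx, rfl⟩ := hy
  exact ⟨⟨x, hx⟩, rfl⟩

lemma nd_quot (H K : Type) [Group H] [Group K] (f : H →* K)
    (hf : Function.Surjective f) (h : ND H) : ND K := by
  haveI : Group.IsNilpotent (commutator H) := h
  exact Group.nilpotent_of_surjective (cm f) (cm_surj f hf)

lemma nil_of_inj {A B : Type} [Group A] [Group B] (f : A →* B) (hf : Function.Injective f)
    [Group.IsNilpotent B] : Group.IsNilpotent A :=
  Subgroup.isNilpotent_of_ker_le_center f (by
    rw [(MonoidHom.ker_eq_bot_iff f).2 hf]; exact bot_le)

lemma nd_inj (H K : Type) [Group H] [Group K] (f : H →* K)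
    (hf : Function.Injective f) (h : ND K) : ND H := by
  haveI : Group.IsNilpotent (commutator K) := h
  refine nil_of_inj (cm f) ?_
  intro x y hxy
  apply Subtype.ext
  apply hf
  exact congrArg Subtype.val hxy

lemma nd_prod (K₁ K₂ : Type) [Group K₁] [Group K₂] (h₁ : ND K₁) (h₂ : ND K₂) :
    ND (K₁ × K₂) := by
  haveI : Group.IsNilpotent (commutator K₁) := h₁
  haveI : Group.IsNilpotent (commutator K₂) := h₂
  refine nil_of_inj ((cm (MonoidHom.fst K₁ K₂)).prod (cm (MonoidHom.snd K₁ K₂))) ?_
  intro x y hxy
  have e1 := congrArg (fun z => (z.1 : K₁)) hxy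
  have e2 := congrArg (fun z => (z.2 : K₂)) hxy
  exact Subtype.ext (Prod.ext e1 e2)

lemma nd_sub (H K₁ K₂ : Type) [Group H] [Group K₁] [Group K₂]
    (f₁ : H →* K₁) (f₂ : H →* K₂) (h₁ : ND K₁) (h₂ : ND K₂) :
    ND ↥(f₁.prod f₂).range :=
  nd_inj _ _ (f₁.prod f₂).range.subtype Subtype.val_injective (nd_prod K₁ K₂ h₁ h₂)

lemma nd_sat (H K : Type) [Group H] [Group K] [Finite H] (f : H →* K)
    (hf : Function.Surjective f) (hker : ∀ M : Subgroup H, IsCoatom M → f.ker ≤ M)
    (hK : ND K) : ND H := by
  haveI : Finite K := Finite.of_surjective f hf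
  haveI hKn : Group.IsNilpotent (commutator K) := hK
  let N : Subgroup H := (commutator K).comap f
  haveI hNn : N.Normal := inferInstance
  have hHN : commutator H ≤ N := by
    rw [← Subgroup.map_le_iff_le_comap]
    exact map_comm_le f
  have hNnil : Group.IsNilpotent N := by
    rw [(Group.isNilpotent_of_finite_tfae (G := N)).out 0 3 rfl rfl]
    intro p hp S
    -- the map N → K'
    let g : N →* commutator K := (f.comp N.subtype).codRestrict (commutator K) (fun x => x.2)
    have hg : Function.Surjective g := by
      rintro ⟨y, hy⟩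
      obtain ⟨x, rfl⟩ := hf y
      exact ⟨⟨x, hy⟩, rfl⟩
    let S' : Sylow p (commutator K) := S.mapSurjective hg
    haveI hS'n : (S' : Subgroup (commutator K)).Normal := inferInstance
    haveI hS'c : (S' : Subgroup (commutator K)).Characteristic := S'.characteristic_of_normal hS'n
    haveI hT : ((S' : Subgroup (commutator K)).map (commutator K).subtype).Normal :=
      ConjAct.normal_of_characteristic_of_normal
    let L : Subgroup H := ((S' : Subgroup (commutator K)).map (commutator K).subtype).comap f
    haveI hL : L.Normal := inferInstance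
    let SH : Subgroup H := (S : Subgroup N).map N.subtype
    have hLeq : (S' : Subgroup (commutator K)).map (commutator K).subtype = SH.map f := by
      show ((S : Subgroup N).map g).map (commutator K).subtype = ((S : Subgroup N).map N.subtype).map f
      rw [Subgroup.map_map, Subgroup.map_map]
      rfl
    have hLsup : L = SH ⊔ f.ker := by
      show ((S' : Subgroup (commutator K)).map (commutator K).subtype).comap f = SH ⊔ f.ker
      rw [hLeq, Subgroup.comap_map_eq]
    have hLN : L ≤ N := by
      intro x hx
      obtain ⟨y, _, hy⟩ := hx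
      show f x ∈ commutator K
      rw [← hy]
      exact y.2
    have hSL : (S : Subgroup N) ≤ L.subgroupOf N := by
      intro x hx
      rw [Subgroup.mem_subgroupOf, hLsup]
      exact (le_sup_left : SH ≤ SH ⊔ f.ker) ⟨x, hx, rfl⟩
    -- S as a Sylow subgroup of L
    have hSH_L : SH ≤ L := by rw [hLsup]; exact le_sup_left
    let SL : Subgroup L := SH.subgroupOf L
    have hSLp : IsPGroup p SL := by
      have h1 : IsPGroup p SH := S.2.map _
      exact h1.comap_of_injective L.subtype Subtype.val_injective
    have hSLi : ¬ p ∣ SL.index := by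
      have h2 : SL.index ∣ SH.relIndex N := by
        have h3 : SH.relIndex L * L.relIndex N = SH.relIndex N :=
          Subgroup.relIndex_mul_relIndex SH L N hSH_L hLN
        exact ⟨_, h3.symm⟩
      have h4 : SH.relIndex N = (S : Subgroup N).index := by
        show (((S : Subgroup N).map N.subtype).subgroupOf N).index = _
        rw [← Subgroup.comap_subtype, Subgroup.comap_map_eq_self_of_injective Subtype.val_injective]
      intro hd
      apply S.not_dvd_index
      rw [← h4]
      exact hd.trans h2
    let SS : Sylow p L := hSLp.toSylow hSLi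
    have hfr := Sylow.normalizer_sup_eq_top SS
    have hmap : (SS : Subgroup L).map L.subtype = SH := by
      show (SH.subgroupOf L).map L.subtype = SH
      rw [Subgroup.subgroupOf_map_subtype, inf_of_le_left hSH_L]
    rw [hmap, hLsup] at hfr
    have hle : SH ≤ Subgroup.normalizer (SH : Set H) := Subgroup.le_normalizer
    have hfr2 : Subgroup.normalizer (SH : Set H) ⊔ f.ker = ⊤ := by
      rw [← sup_assoc, sup_of_le_left hle] at hfr
      exact hfr
    have hnorm : Subgroup.normalizer (SH : Set H) = ⊤ := by
      by_contra hne
      obtain ⟨M, hM, hNM⟩ := (eq_top_or_exists_le_coatom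
        (Subgroup.normalizer (SH : Set H))).resolve_left hne
      exact hM.1 (top_le_iff.1 (hfr2 ▸ sup_le hNM (hker M hM)))
    have hSHn : SH.Normal := Subgroup.normalizer_eq_top_iff.1 hnorm
    constructor
    intro x hx y
    have h1 : (N.subtype) x ∈ SH := ⟨x, hx, rfl⟩
    have h2 := hSHn.conj_mem _ h1 (y : H)
    obtain ⟨w, hw, hw'⟩ := h2
    have : w = y * x * y⁻¹ := Subtype.ext hw'
    rw [← this]
    exact hw
  exact nil_of_inj (Subgroup.inclusion hHN) (Subgroup.inclusion_injective hHN)

end Pool.Agent.H4.NilDer
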