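import Mathlib

set_option autoImplicit false

namespace Pool.Agent.H4.Switch

open Order

/-- adjacency of the BIT graph -/
def R (i j : ℕ) : Prop := Nat.testBit j i = true ∨ Nat.testBit i j = true

lemma R_symm {i j : ℕ} : R i j ↔ R j i := or_comm

lemma exists_bits (U : Finset ℕ) : ∃ z : ℕ, ∀ i, Nat.testBit z i = decide (i ∈ U) := by
  induction U using Finset.induction_on with
  | empty => exact ⟨0, by simp⟩
  | insert a s ha ih =>
    obtain ⟨z, hz⟩ := ih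
    refine ⟨z ||| 2 ^ a, fun i => ?_⟩
    rw [Nat.testBit_or, hz, Nat.testBit_two_pow]
    by_cases h1 : a = i
    · subst h1; simp
    · by_cases h2 : i ∈ s
      · simp [h2]
      · have : i ≠ a := fun h => h1 h.symm
        simp [h1, h2, this]

lemma ext_prop (U V B : Finset ℕ) (h : Disjoint U V) :
    ∃ z, z ∉ B ∧ z ∉ U ∧ z ∉ V ∧ (∀ u ∈ U, R z u) ∧ (∀ v ∈ V, ¬ R z v) := by
  obtain ⟨N, hN⟩ : ∃ N, ∀ x ∈ U ∪ V ∪ B, x < N := by
    refine ⟨(U ∪ V ∪ B).sup id + 1, fun x hx => ?_⟩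
    exact Nat.lt_succ_of_le (Finset.le_sup (f := id) hx)
  obtain ⟨z, hz⟩ := exists_bits (insert N U)
  have hzN : N < z := by
    have h1 : Nat.testBit z N = true := by rw [hz]; simp
    exact lt_of_lt_of_le Nat.lt_two_pow_self (Nat.ge_two_pow_of_testBit h1)
  have hlt : ∀ x ∈ U ∪ V ∪ B, x < z := fun x hx => (hN x hx).trans hzN
  have hU : ∀ x ∈ U, x ∈ U ∪ V ∪ B := by intro x hx; simp [hx]
  have hV : ∀ x ∈ V, x ∈ U ∪ V ∪ B := by intro x hx; simp [hx]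
  have hB : ∀ x ∈ B, x ∈ U ∪ V ∪ B := by intro x hx; simp [hx]
  refine ⟨z, fun h => lt_irrefl _ (hlt z (hB z h)), fun h => lt_irrefl _ (hlt z (hU z h)),
    fun h => lt_irrefl _ (hlt z (hV z h)), ?_, ?_⟩
  · intro u hu
    right
    rw [hz]; simp [hu]
  · intro v hv hR
    rcases hR with h1 | h1
    · have := Nat.testBit_lt_two_pow ((hlt v (hV v hv)).trans Nat.lt_two_pow_self)
      rw [this] at h1
      exact Bool.false_ne_true h1
    · rw [hz] at h1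
      simp only [Finset.mem_insert, decide_eq_true_eq] at h1
      rcases h1 with h1 | h1
      · exact absurd (hN v (hV v hv)) (by omega)
      · exact Finset.disjoint_left.1 h h1 hv

/-- compatibility of a finite relation -/
def Comp (X : Finset ℕ) (f : Finset (ℕ × ℕ)) : Prop :=
  ∀ p ∈ f, ∀ q ∈ f, (p.1 = q.1 ↔ p.2 = q.2) ∧
    (p.1 ≠ q.1 → (R p.2 q.2 ↔ (R p.1 q.1 ↔ (p.1 ∈ X ↔ q.1 ∈ X))))

lemma comp_insert {X : Finset ℕ} {f : Finset (ℕ × ℕ)} (hf : Comp X f) (a b : ℕ)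
    (ha : ∀ p ∈ f, p.1 ≠ a) (hb : ∀ p ∈ f, p.2 ≠ b)
    (h : ∀ p ∈ f, (R b p.2 ↔ (R a p.1 ↔ (a ∈ X ↔ p.1 ∈ X)))) : Comp X (insert (a, b) f) := by
  intro p hp q hq
  rw [Finset.mem_insert] at hp hq
  rcases hp with rfl | hp <;> rcases hq with rfl | hq
  · exact ⟨⟨fun _ => rfl, fun _ => rfl⟩, fun h => absurd rfl h⟩
  · refine ⟨⟨fun e => absurd e.symm (ha q hq), fun e => absurd e.symm (hb q hq)⟩, fun _ => h q hq⟩
  · refine ⟨⟨fun e => absurd e (ha p hp), fun e => absurd e (hb p hp)⟩, fun _ => ?_⟩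
    have := h p hp
    rw [R_symm (i := p.2), R_symm (i := p.1), this]
    show (R a p.1 ↔ (a ∈ X ↔ p.1 ∈ X)) ↔ (R a p.1 ↔ (p.1 ∈ X ↔ a ∈ X))
    by_cases h1 : R a p.1 <;> by_cases h2 : a ∈ X <;> by_cases h3 : p.1 ∈ X <;> simp [h1, h2, h3]
  · exact hf p hp q hq

/-- finite partial switching isomorphisms -/
def PI (X : Finset ℕ) : Type := {f : Finset (ℕ × ℕ) // Comp X f}

instance (X : Finset ℕ) : Preorder (PI X) := Subtype.preorder _

lemma exists_left (X : Finset ℕ) (f : PI X) (a : ℕ) : ∃ g : PI X, (∃ b, (a, b) ∈ g.1) ∧ f ≤ g := by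
  classical
  by_cases h : ∃ b, (a, b) ∈ f.1
  · exact ⟨f, h, le_rfl⟩
  have ha : ∀ p ∈ f.1, p.1 ≠ a := by
    rintro ⟨p1, p2⟩ hp rfl
    exact h ⟨p2, hp⟩
  obtain ⟨b, hbB, -, -, hbU, hbV⟩ := ext_prop
    ((f.1.filter (fun p => (R a p.1 ↔ (a ∈ X ↔ p.1 ∈ X)))).image Prod.snd)
    ((f.1.filter (fun p => ¬ (R a p.1 ↔ (a ∈ X ↔ p.1 ∈ X)))).image Prod.snd)
    (f.1.image Prod.snd) (by
      rw [Finset.disjoint_left]
      intro x hx hy
      rw [Finset.mem_image] at hx hy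
      obtain ⟨p, hp, rfl⟩ := hx
      obtain ⟨q, hq, hpq⟩ := hy
      rw [Finset.mem_filter] at hp hq
      have := ((f.2 q hq.1 p hp.1).1).2 hpq
      rw [this] at hq
      exact hq.2 hp.2)
  have hb : ∀ p ∈ f.1, p.2 ≠ b := by
    intro p hp e
    exact hbB (Finset.mem_image.2 ⟨p, hp, e⟩)
  refine ⟨⟨insert (a, b) f.1, comp_insert f.2 a b ha hb ?_⟩, ⟨b, Finset.mem_insert_self _ _⟩,
    Finset.subset_insert _ _⟩
  intro p hp
  by_cases hc : (R a p.1 ↔ (a ∈ X ↔ p.1 ∈ X))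
  · exact ⟨fun _ => hc, fun _ => hbU _ (Finset.mem_image_of_mem _ (Finset.mem_filter.2 ⟨hp, hc⟩))⟩
  · exact ⟨fun h' => absurd h' (hbV _ (Finset.mem_image_of_mem _ (Finset.mem_filter.2 ⟨hp, hc⟩))),
      fun h' => absurd h' hc⟩

lemma exists_right (X : Finset ℕ) (f : PI X) (b : ℕ) :
    ∃ g : PI X, (∃ a, (a, b) ∈ g.1) ∧ f ≤ g := by
  classical
  by_cases h : ∃ a, (a, b) ∈ f.1
  · exact ⟨f, h, le_rfl⟩
  have hb : ∀ p ∈ f.1, p.2 ≠ b := by
    rintro ⟨p1, p2⟩ hp rfl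
    exact h ⟨p1, hp⟩
  obtain ⟨a, haB, -, -, haU, haV⟩ := ext_prop
    ((f.1.filter (fun p => (R b p.2 ↔ p.1 ∉ X))).image Prod.fst)
    ((f.1.filter (fun p => ¬ (R b p.2 ↔ p.1 ∉ X))).image Prod.fst)
    (f.1.image Prod.fst ∪ X) (by
      rw [Finset.disjoint_left]
      intro x hx hy
      rw [Finset.mem_image] at hx hy
      obtain ⟨p, hp, rfl⟩ := hx
      obtain ⟨q, hq, hpq⟩ := hy
      rw [Finset.mem_filter] at hp hq
      have := ((f.2 q hq.1 p hp.1).1).1 hpq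
      rw [this, hpq] at hq
      exact hq.2 hp.2)
  rw [Finset.mem_union, not_or] at haB
  have ha : ∀ p ∈ f.1, p.1 ≠ a := by
    intro p hp e
    exact haB.1 (Finset.mem_image.2 ⟨p, hp, e⟩)
  refine ⟨⟨insert (a, b) f.1, comp_insert f.2 a b ha hb ?_⟩, ⟨a, Finset.mem_insert_self _ _⟩,
    Finset.subset_insert _ _⟩
  intro p hp
  have haX := haB.2
  by_cases hc : (R b p.2 ↔ p.1 ∉ X)
  · have h1 := haU _ (Finset.mem_image_of_mem _ (Finset.mem_filter.2 ⟨hp, hc⟩))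
    rw [hc]
    by_cases h3 : p.1 ∈ X <;> simp [h1, haX, h3]
  · have h1 := haV _ (Finset.mem_image_of_mem _ (Finset.mem_filter.2 ⟨hp, hc⟩))
    by_cases h2 : R b p.2 <;> by_cases h3 : p.1 ∈ X <;> simp_all

/-- extension of finite partial switching isomorphisms to switching automorphisms -/
theorem hom_ext (X : Finset ℕ) (f0 : Finset (ℕ × ℕ)) (h0 : Comp X f0) :
    ∃ σ : Equiv.Perm ℕ, (∀ p ∈ f0, σ p.1 = p.2) ∧
      ∀ i j, i ≠ j → (R (σ i) (σ j) ↔ (R i j ↔ (i ∈ X ↔ j ∈ X))) := by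
  classical
  let DL : ℕ → Cofinal (PI X) := fun a =>
    { carrier := {f | ∃ b, (a, b) ∈ f.1}
      isCofinal := fun f => exists_left X f a }
  let DR : ℕ → Cofinal (PI X) := fun b =>
    { carrier := {f | ∃ a, (a, b) ∈ f.1}
      isCofinal := fun f => exists_right X f b }
  let D : ℕ ⊕ ℕ → Cofinal (PI X) := fun p => Sum.recOn p DL DR
  let I : Ideal (PI X) := idealOfCofinals (⟨f0, h0⟩ : PI X) D
  have hL : ∀ a, ∃ b, ∃ f ∈ I, (a, b) ∈ f.1 := by
    intro a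
    obtain ⟨f, ⟨b, hb⟩, hf⟩ := cofinal_meets_idealOfCofinals (⟨f0, h0⟩ : PI X) D (Sum.inl a)
    exact ⟨b, f, hf, hb⟩
  have hR : ∀ b, ∃ a, ∃ f ∈ I, (a, b) ∈ f.1 := by
    intro b
    obtain ⟨f, ⟨a, hb⟩, hf⟩ := cofinal_meets_idealOfCofinals (⟨f0, h0⟩ : PI X) D (Sum.inr b)
    exact ⟨a, f, hf, hb⟩
  have hdir : ∀ f ∈ I, ∀ g ∈ I, ∃ k ∈ I, f ≤ k ∧ g ≤ k := fun f hf g hg => I.directed f hf g hg
  have hcomp : ∀ p q : ℕ × ℕ, (∃ f ∈ I, p ∈ f.1) → (∃ f ∈ I, q ∈ f.1) →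
      ((p.1 = q.1 ↔ p.2 = q.2) ∧
        (p.1 ≠ q.1 → (R p.2 q.2 ↔ (R p.1 q.1 ↔ (p.1 ∈ X ↔ q.1 ∈ X))))) := by
    rintro p q ⟨f, hf, hp⟩ ⟨g, hg, hq⟩
    obtain ⟨k, -, hfk, hgk⟩ := hdir f hf g hg
    exact k.2 p (hfk hp) q (hgk hq)
  choose F hF using hL
  choose G hG using hR
  refine ⟨⟨F, G, ?_, ?_⟩, ?_, ?_⟩
  · intro a
    exact ((hcomp (G (F a), F a) (a, F a) (hG _) (hF _)).1).2 rfl
  · intro b
    exact ((hcomp (G b, F (G b)) (G b, b) (hF _) (hG _)).1).1 rfl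
  · rintro ⟨a, b⟩ hp
    exact ((hcomp (a, F a) (a, b) (hF _) ⟨_, mem_idealOfCofinals _ _, hp⟩).1).1 rfl
  · intro i j hij
    exact (hcomp (i, F i) (j, F j) (hF _) (hF _)).2 hij

/-- a function injective on a finite set agrees there with a permutation -/
theorem ext_perm (S : Finset ℕ) (g : ℕ → ℕ) (hg : Set.InjOn g S) :
    ∃ π : Equiv.Perm ℕ, ∀ i ∈ S, π i = g i := by
  classical
  let e : Fin S.card ≃ S := S.equivFin.symm
  let x : Fin S.card ↪ ℕ := ⟨fun k => (e k : ℕ), fun a b h => e.injective (Subtype.ext h)⟩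
  let y : Fin S.card ↪ ℕ := ⟨fun k => g (e k : ℕ), fun a b h => e.injective
    (Subtype.ext (hg (e a).2 (e b).2 h))⟩
  have := Equiv.Perm.isMultiplyPretransitive ℕ S.card
  obtain ⟨π, hπ⟩ := this.exists_smul_eq x y
  refine ⟨π, fun i hi => ?_⟩
  have h1 := DFunLike.congr_fun hπ (e.symm ⟨i, hi⟩)
  simpa [x, y] using h1

/-- universality of the BIT graph -/
theorem univ_inj (P : ℕ → ℕ → Prop) (hP : ∀ i j, P i j ↔ P j i) (S : Finset ℕ) :
    ∃ g : ℕ → ℕ, Set.InjOn g S ∧ ∀ i ∈ S, ∀ j ∈ S, i ≠ j → (R (g i) (g j) ↔ P i j) := by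
  classical
  induction S using Finset.induction_on with
  | empty => exact ⟨id, by simp, by simp⟩
  | insert a S ha ih =>
    obtain ⟨g, hg, hgP⟩ := ih
    obtain ⟨b, hbB, -, -, hbU, hbV⟩ := ext_prop ((S.filter (fun i => P a i)).image g)
      ((S.filter (fun i => ¬ P a i)).image g) (S.image g) (by
        rw [Finset.disjoint_left]
        intro x hx hy
        rw [Finset.mem_image] at hx hy
        obtain ⟨p, hp, rfl⟩ := hx
        obtain ⟨q, hq, hpq⟩ := hy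
        rw [Finset.mem_filter] at hp hq
        have := hg hq.1 hp.1 hpq
        rw [this] at hq
        exact hq.2 hp.2)
    have hne : ∀ i ∈ S, i ≠ a := fun i hi h => ha (h ▸ hi)
    have key : ∀ i ∈ S, (R b (g i) ↔ P a i) := by
      intro i hi
      by_cases h : P a i
      · exact ⟨fun _ => h, fun _ => hbU _ (Finset.mem_image_of_mem _
          (Finset.mem_filter.2 ⟨hi, h⟩))⟩
      · exact ⟨fun h' => absurd h' (hbV _ (Finset.mem_image_of_mem _
          (Finset.mem_filter.2 ⟨hi, h⟩))), fun h' => absurd h' h⟩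
    refine ⟨Function.update g a b, ?_, ?_⟩
    · intro i hi j hj hij
      rw [Finset.mem_coe, Finset.mem_insert] at hi hj
      rcases hi with rfl | hi <;> rcases hj with rfl | hj
      · rfl
      · rw [Function.update_self, Function.update_of_ne (hne j hj)] at hij
        exact absurd (Finset.mem_image.2 ⟨j, hj, hij.symm⟩) hbB
      · rw [Function.update_self, Function.update_of_ne (hne i hi)] at hij
        exact absurd (Finset.mem_image.2 ⟨i, hi, hij⟩) hbB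
      · rw [Function.update_of_ne (hne i hi), Function.update_of_ne (hne j hj)] at hij
        exact hg hi hj hij
    · intro i hi j hj hij
      rw [Finset.mem_insert] at hi hj
      rcases hi with rfl | hi <;> rcases hj with rfl | hj
      · exact absurd rfl hij
      · rw [Function.update_self, Function.update_of_ne (hne j hj)]
        exact key j hj
      · rw [Function.update_self, Function.update_of_ne (hne i hi), R_symm, hP]
        exact key i hi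
      · rw [Function.update_of_ne (hne i hi), Function.update_of_ne (hne j hj)]
        exact hgP i hi j hj hij

theorem univ (P : ℕ → ℕ → Prop) (hP : ∀ i j, P i j ↔ P j i) (S : Finset ℕ) :
    ∃ π : Equiv.Perm ℕ, ∀ i ∈ S, ∀ j ∈ S, i ≠ j → (R (π i) (π j) ↔ P i j) := by
  obtain ⟨g, hg, hgP⟩ := univ_inj P hP S
  obtain ⟨π, hπ⟩ := ext_perm S g hg
  refine ⟨π, fun i hi j hj hij => ?_⟩
  rw [hπ i hi, hπ j hj]
  exact hgP i hi j hj hij

end Pool.Agent.H4.Switch
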