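import Pool.Agent.H4.SwitchA

set_option autoImplicit false

namespace Pool.Agent.H4.Switch

open scoped Classical

/-- a finite vertex set with a finite set of edges -/
abbrev LG : Type := Finset ℕ × Finset (Sym2 ℕ)

/-- all possible edges on `S` -/
noncomputable def Ed (S : Finset ℕ) : Finset (Sym2 ℕ) := S.sym2.filter (fun e => ¬ e.IsDiag)

lemma mem_Ed {S : Finset ℕ} {e : Sym2 ℕ} : e ∈ Ed S ↔ (∀ v ∈ e, v ∈ S) ∧ ¬ e.IsDiag := by
  simp [Ed, Finset.mem_sym2_iff]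

lemma mem_Ed' {S : Finset ℕ} {i j : ℕ} : s(i, j) ∈ Ed S ↔ i ∈ S ∧ j ∈ S ∧ i ≠ j := by
  rw [mem_Ed]
  simp [and_assoc]

/-- the map on edges induced by a permutation -/
def eM (π : Equiv.Perm ℕ) : Sym2 ℕ ↪ Sym2 ℕ := π.toEmbedding.sym2Map

lemma eM_apply (π : Equiv.Perm ℕ) (e : Sym2 ℕ) : eM π e = Sym2.map π e := rfl

lemma eM_mk (π : Equiv.Perm ℕ) (i j : ℕ) : eM π s(i, j) = s(π i, π j) := rfl

/-- vertex sets moved by a permutation -/
def vM (π : Equiv.Perm ℕ) (S : Finset ℕ) : Finset ℕ := S.map π.toEmbedding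

lemma mem_vM {π : Equiv.Perm ℕ} {S : Finset ℕ} {i : ℕ} : π i ∈ vM π S ↔ i ∈ S := by
  simp [vM]

lemma Ed_vM (π : Equiv.Perm ℕ) (S : Finset ℕ) : Ed (vM π S) = (Ed S).map (eM π) := by
  ext e
  obtain ⟨e, rfl⟩ : ∃ e', eM π e' = e := by
    induction e using Sym2.ind with
    | _ a b => exact ⟨s(π.symm a, π.symm b), by simp [eM_mk]⟩
  rw [Finset.mem_map' (eM π)]
  induction e using Sym2.ind with
  | _ a b =>
    rw [eM_mk, mem_Ed', mem_Ed', mem_vM, mem_vM]
    simp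

/-- action on graphs -/
def pm (π : Equiv.Perm ℕ) (g : LG) : LG := (vM π g.1, g.2.map (eM π))

lemma pm_one (g : LG) : pm 1 g = g := by
  refine Prod.ext ?_ ?_
  · show g.1.map _ = g.1
    ext i
    simp only [Finset.mem_map_equiv]
    exact Iff.rfl
  · show g.2.map _ = g.2
    ext e
    simp only [Finset.mem_map, eM_apply]
    constructor
    · rintro ⟨a, ha, rfl⟩
      simpa using ha
    · intro h
      exact ⟨e, h, by simp⟩

lemma pm_mul (π τ : Equiv.Perm ℕ) (g : LG) : pm (π * τ) g = pm π (pm τ g) := by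
  refine Prod.ext ?_ ?_
  · show g.1.map _ = (g.1.map _).map _
    rw [Finset.map_map]; rfl
  · show g.2.map _ = (g.2.map _).map _
    rw [Finset.map_map]
    congr 1
    ext e
    simp only [eM_apply, Function.Embedding.trans_apply, Sym2.map_map]
    rfl

/-- isomorphism of graphs -/
instance St : Setoid LG where
  r g h := ∃ π, pm π g = h
  iseqv := by
    refine ⟨fun g => ⟨1, pm_one g⟩, ?_, ?_⟩
    · rintro g h ⟨π, rfl⟩
      exact ⟨π⁻¹, by rw [← pm_mul, inv_mul_cancel, pm_one]⟩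
    · rintro g h k ⟨π, rfl⟩ ⟨τ, rfl⟩
      exact ⟨τ * π, by rw [pm_mul]⟩

/-- isomorphism types -/
abbrev Q : Type := Quotient St

lemma q_eq {g h : LG} : (⟦g⟧ : Q) = ⟦h⟧ ↔ ∃ π, pm π g = h := Quotient.eq

/-- invariant functions -/
def Inv (c : LG → ℚ) : Prop := ∀ π g, c (pm π g) = c g

/-- indicator of an isomorphism type -/
noncomputable def del (q : Q) (g : LG) : ℚ := if (⟦g⟧ : Q) = q then 1 else 0

lemma del_inv (q : Q) : Inv (del q) := by
  intro π g
  have : (⟦pm π g⟧ : Q) = ⟦g⟧ := (q_eq.2 ⟨π, rfl⟩).symm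
  simp [del, this]

/-- sign character -/
noncomputable def sg (Y H : Finset (Sym2 ℕ)) : ℚ := ∏ e ∈ H, (if e ∈ Y then -1 else 1)

lemma sg_symm (Y H : Finset (Sym2 ℕ)) : sg Y H = sg H Y := by
  unfold sg
  rw [Finset.prod_ite, Finset.prod_ite, Finset.prod_const_one, Finset.prod_const_one, mul_one,
    mul_one, Finset.prod_const, Finset.prod_const]
  congr 2
  ext e
  simp [and_comm]

lemma orth (E Y Z : Finset (Sym2 ℕ)) (hY : Y ⊆ E) (hZ : Z ⊆ E) :
    ∑ H ∈ E.powerset, sg Y H * sg Z H = if Y = Z then 2 ^ E.card else 0 := by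
  have h1 : ∀ H ∈ E.powerset, sg Y H * sg Z H =
      ∏ e ∈ H, ((if e ∈ Y then (-1 : ℚ) else 1) * (if e ∈ Z then -1 else 1)) := by
    intro H _
    rw [Finset.prod_mul_distrib]; rfl
  rw [Finset.sum_congr rfl h1, ← Finset.prod_one_add]
  split_ifs with h
  · subst h
    rw [Finset.prod_congr rfl (g := fun _ => (2 : ℚ)), Finset.prod_const]
    intro e _
    split_ifs <;> norm_num
  · obtain ⟨e, he, hne⟩ : ∃ e ∈ E, ¬ (e ∈ Y ↔ e ∈ Z) := by
      by_contra hc
      push Not at hc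
      apply h
      ext e
      constructor
      · intro he; exact (hc e (hY he)).1 he
      · intro he; exact (hc e (hZ he)).2 he
    apply Finset.prod_eq_zero he
    by_cases h1 : e ∈ Y <;> by_cases h2 : e ∈ Z <;> simp_all

/-- edges of the BIT graph -/
def RS : Set (Sym2 ℕ) := Sym2.fromRel (r := R) ⟨fun _ _ h => R_symm.1 h⟩

lemma mem_RS {i j : ℕ} : s(i, j) ∈ RS ↔ R i j := Iff.rfl

/-- the sign of an edge -/
noncomputable def rho (e : Sym2 ℕ) : ℚ := if e ∈ RS then -1 else 1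

/-- the sign of a graph -/
noncomputable def eps (H : Finset (Sym2 ℕ)) : ℚ := ∏ e ∈ H, rho e

/-- synthesis -/
noncomputable def Sy (c : LG → ℚ) (S : Finset ℕ) : ℚ :=
  ∑ H ∈ (Ed S).powerset, c (S, H) * eps H

lemma sum_powerset_map {α β : Type} (f : α ↪ β) (E : Finset α) (F : Finset β → ℚ) :
    ∑ H ∈ (E.map f).powerset, F H = ∑ H ∈ E.powerset, F (H.map f) := by
  symm
  refine Finset.sum_nbij (fun H => H.map f) ?_ ?_ ?_ (fun _ _ => rfl)
  · intro H hH
    rw [Finset.mem_powerset] at hH ⊢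
    exact Finset.map_subset_map.2 hH
  · intro H _ H' _ h
    exact Finset.map_injective f h
  · intro H hH
    rw [Finset.mem_coe, Finset.mem_powerset, Finset.subset_map_iff] at hH
    obtain ⟨u, hu, rfl⟩ := hH
    exact ⟨u, by simpa using hu, rfl⟩

/-- `π` realises the graph `Y` on `S` -/
def Real (π : Equiv.Perm ℕ) (S : Finset ℕ) (Y : Finset (Sym2 ℕ)) : Prop :=
  ∀ e ∈ Ed S, (eM π e ∈ RS ↔ e ∈ Y)

lemma exists_real (S : Finset ℕ) (Y : Finset (Sym2 ℕ)) : ∃ π, Real π S Y := by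
  obtain ⟨π, hπ⟩ := univ (fun i j => s(i, j) ∈ Y) (fun i j => by rw [Sym2.eq_swap]) S
  refine ⟨π, fun e he => ?_⟩
  induction e using Sym2.ind with
  | _ a b =>
    rw [mem_Ed'] at he
    rw [eM_mk, mem_RS]
    exact hπ a he.1 b he.2.1 he.2.2

lemma eps_map {π : Equiv.Perm ℕ} {S : Finset ℕ} {Y H : Finset (Sym2 ℕ)} (h : Real π S Y)
    (hH : H ⊆ Ed S) : eps (H.map (eM π)) = sg Y H := by
  unfold eps sg
  rw [Finset.prod_map]
  refine Finset.prod_congr rfl (fun e he => ?_)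
  unfold rho
  simp only [h e (hH he)]

lemma Sy_vM (c : LG → ℚ) (hc : Inv c) (π : Equiv.Perm ℕ) (S : Finset ℕ) :
    Sy c (vM π S) = ∑ H ∈ (Ed S).powerset, c (S, H) * eps (H.map (eM π)) := by
  unfold Sy
  rw [Ed_vM, sum_powerset_map]
  refine Finset.sum_congr rfl (fun H _ => ?_)
  rw [← hc π (S, H)]
  rfl

lemma Sy_inj (c : LG → ℚ) (hc : Inv c) (h : ∀ S, Sy c S = 0) (S : Finset ℕ)
    (H : Finset (Sym2 ℕ)) (hH : H ⊆ Ed S) : c (S, H) = 0 := by
  have h1 : ∀ Y, ∑ H ∈ (Ed S).powerset, c (S, H) * sg Y H = 0 := by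
    intro Y
    obtain ⟨π, hπ⟩ := exists_real S Y
    rw [← h (vM π S), Sy_vM c hc]
    refine Finset.sum_congr rfl (fun H hH => ?_)
    rw [eps_map hπ (Finset.mem_powerset.1 hH)]
  have h2 : ∑ Y ∈ (Ed S).powerset, sg Y H * ∑ H' ∈ (Ed S).powerset, c (S, H') * sg Y H' = 0 := by
    refine Finset.sum_eq_zero (fun Y _ => ?_)
    rw [h1, mul_zero]
  simp only [Finset.mul_sum] at h2
  rw [Finset.sum_comm] at h2
  have h3 : ∀ H' ∈ (Ed S).powerset, ∑ Y ∈ (Ed S).powerset, sg Y H * (c (S, H') * sg Y H') =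
      c (S, H') * (if H = H' then 2 ^ (Ed S).card else 0) := by
    intro H' hH'
    rw [← orth (Ed S) H H' hH (Finset.mem_powerset.1 hH'), Finset.mul_sum]
    refine Finset.sum_congr rfl (fun Y _ => ?_)
    rw [sg_symm Y H, sg_symm Y H']
    ring
  rw [Finset.sum_congr rfl h3] at h2
  simp only [mul_ite, mul_zero, Finset.sum_ite_eq, Finset.mem_powerset, hH, if_true] at h2
  rcases mul_eq_zero.1 h2 with h4 | h4
  · exact h4
  · exact absurd h4 (by positivity)

end Pool.Agent.H4.Switch
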