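import Pool.Agent.H4.SwitchB

set_option autoImplicit false

namespace Pool.Agent.H4.Switch

open scoped Classical

/-- `A` is a union of components -/
def Cl (A : Finset ℕ) (H : Finset (Sym2 ℕ)) : Prop :=
  ∀ e ∈ H, (∀ v ∈ e, v ∈ A) ∨ (∀ v ∈ e, v ∉ A)

/-- restriction of a graph -/
noncomputable def res (A : Finset ℕ) (H : Finset (Sym2 ℕ)) : Finset (Sym2 ℕ) :=
  H.filter (fun e => ∀ v ∈ e, v ∈ A)

lemma mem_res {A : Finset ℕ} {H : Finset (Sym2 ℕ)} {e : Sym2 ℕ} :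
    e ∈ res A H ↔ e ∈ H ∧ ∀ v ∈ e, v ∈ A := by simp [res]

lemma exists_mem (e : Sym2 ℕ) : ∃ v, v ∈ e := by
  induction e using Sym2.ind with
  | _ a b => exact ⟨a, Sym2.mem_mk_left a b⟩

/-- convolution -/
noncomputable def conv (c c' : LG → ℚ) (g : LG) : ℚ :=
  ∑ A ∈ g.1.powerset.filter (fun A => Cl A g.2),
    c (A, res A g.2) * c' (g.1 \ A, res (g.1 \ A) g.2)

lemma res_union_left {A B : Finset ℕ} {H1 H2 : Finset (Sym2 ℕ)} (hAB : Disjoint A B)
    (h1 : H1 ⊆ Ed A) (h2 : H2 ⊆ Ed B) : res A (H1 ∪ H2) = H1 := by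
  ext e
  rw [mem_res, Finset.mem_union]
  constructor
  · rintro ⟨h | h, h'⟩
    · exact h
    · exfalso
      obtain ⟨v, hv⟩ := exists_mem e
      exact Finset.disjoint_left.1 hAB (h' v hv) ((mem_Ed.1 (h2 h)).1 v hv)
  · intro h
    exact ⟨Or.inl h, (mem_Ed.1 (h1 h)).1⟩

lemma cl_union {A B : Finset ℕ} {H1 H2 : Finset (Sym2 ℕ)} (hAB : Disjoint A B)
    (h1 : H1 ⊆ Ed A) (h2 : H2 ⊆ Ed B) : Cl A (H1 ∪ H2) := by
  intro e he
  rw [Finset.mem_union] at he
  rcases he with h | h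
  · exact Or.inl (mem_Ed.1 (h1 h)).1
  · exact Or.inr (fun v hv hA => Finset.disjoint_left.1 hAB hA ((mem_Ed.1 (h2 h)).1 v hv))

lemma Ed_mono {A B : Finset ℕ} (h : A ⊆ B) : Ed A ⊆ Ed B := by
  intro e he
  rw [mem_Ed] at he ⊢
  exact ⟨fun v hv => h (he.1 v hv), he.2⟩

lemma res_sub {A S : Finset ℕ} {H : Finset (Sym2 ℕ)} (hH : H ⊆ Ed S) : res A H ⊆ Ed A := by
  intro e he
  rw [mem_res] at he
  exact mem_Ed.2 ⟨he.2, (mem_Ed.1 (hH he.1)).2⟩

lemma res_union_res {A S : Finset ℕ} {H : Finset (Sym2 ℕ)} (hH : H ⊆ Ed S) (hA : Cl A H) :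
    res A H ∪ res (S \ A) H = H := by
  ext e
  rw [Finset.mem_union, mem_res, mem_res]
  constructor
  · rintro (h | h) <;> exact h.1
  · intro h
    rcases hA e h with h1 | h1
    · exact Or.inl ⟨h, h1⟩
    · refine Or.inr ⟨h, fun v hv => Finset.mem_sdiff.2 ⟨(mem_Ed.1 (hH h)).1 v hv, h1 v hv⟩⟩

lemma eps_union {A B : Finset ℕ} {H1 H2 : Finset (Sym2 ℕ)} (hAB : Disjoint A B)
    (h1 : H1 ⊆ Ed A) (h2 : H2 ⊆ Ed B) : eps (H1 ∪ H2) = eps H1 * eps H2 := by
  unfold eps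
  apply Finset.prod_union
  rw [Finset.disjoint_left]
  intro e he he'
  obtain ⟨v, hv⟩ := exists_mem e
  exact Finset.disjoint_left.1 hAB ((mem_Ed.1 (h1 he)).1 v hv) ((mem_Ed.1 (h2 he')).1 v hv)

lemma Sy_mul (c c' : LG → ℚ) (S : Finset ℕ) :
    ∑ A ∈ S.powerset, Sy c A * Sy c' (S \ A) = Sy (conv c c') S := by
  have h1 : Sy (conv c c') S = ∑ A ∈ S.powerset, ∑ H ∈ (Ed S).powerset.filter (fun H => Cl A H),
      c (A, res A H) * c' (S \ A, res (S \ A) H) * eps H := by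
    unfold Sy conv
    simp only [Finset.sum_mul, Finset.sum_filter]
    rw [Finset.sum_comm]
    refine Finset.sum_congr rfl (fun A _ => Finset.sum_congr rfl (fun H _ => ?_))
    split_ifs <;> simp
  rw [h1]
  refine Finset.sum_congr rfl (fun A hA => ?_)
  rw [Finset.mem_powerset] at hA
  have hd : Disjoint A (S \ A) := Finset.disjoint_sdiff
  unfold Sy
  rw [Finset.sum_mul_sum, ← Finset.sum_product']
  refine Finset.sum_nbij' (fun p => p.1 ∪ p.2) (fun H => (res A H, res (S \ A) H)) ?_ ?_ ?_ ?_ ?_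
  · rintro ⟨H1, H2⟩ hp
    simp only [Finset.mem_product, Finset.mem_powerset] at hp
    rw [Finset.mem_filter, Finset.mem_powerset]
    exact ⟨Finset.union_subset (hp.1.trans (Ed_mono hA))
      (hp.2.trans (Ed_mono Finset.sdiff_subset)), cl_union hd hp.1 hp.2⟩
  · intro H hH
    rw [Finset.mem_filter, Finset.mem_powerset] at hH
    simp only [Finset.mem_product, Finset.mem_powerset]
    exact ⟨res_sub hH.1, res_sub hH.1⟩
  · rintro ⟨H1, H2⟩ hp
    simp only [Finset.mem_product, Finset.mem_powerset] at hp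
    refine Prod.ext ?_ ?_
    · exact res_union_left hd hp.1 hp.2
    · show res (S \ A) (H1 ∪ H2) = H2
      rw [Finset.union_comm]
      exact res_union_left hd.symm hp.2 hp.1
  · intro H hH
    rw [Finset.mem_filter, Finset.mem_powerset] at hH
    exact res_union_res hH.1 hH.2
  · rintro ⟨H1, H2⟩ hp
    simp only [Finset.mem_product, Finset.mem_powerset] at hp
    show c (A, H1) * eps H1 * (c' (S \ A, H2) * eps H2) =
      c (A, res A (H1 ∪ H2)) * c' (S \ A, res (S \ A) (H1 ∪ H2)) * eps (H1 ∪ H2)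
    rw [eps_union hd hp.1 hp.2, res_union_left hd hp.1 hp.2, Finset.union_comm H1 H2,
      res_union_left hd.symm hp.2 hp.1]
    ring

lemma Cl_vM (π : Equiv.Perm ℕ) (A : Finset ℕ) (H : Finset (Sym2 ℕ)) :
    Cl (vM π A) (H.map (eM π)) ↔ Cl A H := by
  unfold Cl
  rw [Finset.forall_mem_map]
  refine forall₂_congr (fun e _ => ?_)
  induction e using Sym2.ind with
  | _ a b => simp [eM_mk, mem_vM]

lemma res_vM (π : Equiv.Perm ℕ) (A : Finset ℕ) (H : Finset (Sym2 ℕ)) :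
    res (vM π A) (H.map (eM π)) = (res A H).map (eM π) := by
  unfold res
  rw [Finset.filter_map]
  congr 1
  refine Finset.filter_congr (fun e _ => ?_)
  induction e using Sym2.ind with
  | _ a b => simp [eM_mk, mem_vM]

lemma vM_sdiff (π : Equiv.Perm ℕ) (S A : Finset ℕ) : vM π (S \ A) = vM π S \ vM π A := by
  ext i
  obtain ⟨i, rfl⟩ := π.surjective i
  simp [mem_vM]

lemma conv_inv (c c' : LG → ℚ) (hc : Inv c) (hc' : Inv c') : Inv (conv c c') := by
  rintro π ⟨S, H⟩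
  unfold conv
  symm
  refine Finset.sum_nbij (fun A => vM π A) ?_ ?_ ?_ ?_
  · intro A hA
    rw [Finset.mem_filter, Finset.mem_powerset] at hA ⊢
    exact ⟨Finset.map_subset_map.2 hA.1, (Cl_vM π A H).2 hA.2⟩
  · intro A _ A' _ h
    exact Finset.map_injective _ h
  · intro A hA
    rw [Finset.mem_coe, Finset.mem_filter, Finset.mem_powerset] at hA
    obtain ⟨u, hu, rfl⟩ := Finset.subset_map_iff.1 hA.1
    refine ⟨u, ?_, rfl⟩
    rw [Finset.mem_coe, Finset.mem_filter, Finset.mem_powerset]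
    exact ⟨hu, (Cl_vM π u H).1 hA.2⟩
  · intro A _
    show c (A, res A H) * c' (S \ A, res (S \ A) H) = c (vM π A, res (vM π A) (H.map (eM π))) *
      c' (vM π S \ vM π A, res (vM π S \ vM π A) (H.map (eM π)))
    rw [res_vM, ← vM_sdiff, res_vM, ← hc π (A, res A H), ← hc' π (S \ A, res (S \ A) H)]
    rfl

/-- validity -/
def Va (g : LG) : Prop := g.2 ⊆ Ed g.1

lemma va_pm {g : LG} (h : Va g) (π : Equiv.Perm ℕ) : Va (pm π g) := by
  show g.2.map _ ⊆ Ed (vM π g.1)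
  rw [Ed_vM]
  exact Finset.map_subset_map.2 h

/-- disjoint union -/
noncomputable def du (g1 g2 : LG) : LG := (g1.1 ∪ g2.1, g1.2 ∪ g2.2)

lemma va_du {g1 g2 : LG} (h1 : Va g1) (h2 : Va g2) : Va (du g1 g2) :=
  Finset.union_subset (h1.trans (Ed_mono Finset.subset_union_left))
    (h2.trans (Ed_mono Finset.subset_union_right))

lemma glue {g1 g2 h1 h2 : LG} (v1 : Va g1) (v2 : Va g2)
    (hd : Disjoint g1.1 g2.1) (hd' : Disjoint h1.1 h2.1)
    (e1 : (⟦g1⟧ : Q) = ⟦h1⟧) (e2 : (⟦g2⟧ : Q) = ⟦h2⟧) : (⟦du g1 g2⟧ : Q) = ⟦du h1 h2⟧ := by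
  obtain ⟨π1, rfl⟩ := q_eq.1 e1
  obtain ⟨π2, rfl⟩ := q_eq.1 e2
  obtain ⟨π, hπ⟩ := ext_perm (g1.1 ∪ g2.1) (fun i => if i ∈ g1.1 then π1 i else π2 i) (by
    have key : ∀ i ∈ g1.1, ∀ j ∈ g2.1, π1 i ≠ π2 j := by
      intro i hi j hj h
      apply Finset.disjoint_left.1 hd' (mem_vM.2 hi)
      rw [h]
      exact mem_vM.2 hj
    intro i hi j hj hij
    rw [Finset.mem_coe, Finset.mem_union] at hi hj
    dsimp only at hij
    split_ifs at hij with a b b
    · exact π1.injective hij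
    · exact absurd hij (key i a j (hj.resolve_left b))
    · exact absurd hij.symm (key j b i (hi.resolve_left a))
    · exact π2.injective hij)
  have hp1 : ∀ i ∈ g1.1, π i = π1 i := by
    intro i hi
    rw [hπ i (Finset.mem_union_left _ hi), if_pos hi]
  have hp2 : ∀ i ∈ g2.1, π i = π2 i := by
    intro i hi
    rw [hπ i (Finset.mem_union_right _ hi), if_neg (Finset.disjoint_right.1 hd hi)]
  refine q_eq.2 ⟨π, ?_⟩
  have hv : ∀ (S : Finset ℕ) (τ : Equiv.Perm ℕ), (∀ i ∈ S, π i = τ i) → vM π S = vM τ S := by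
    intro S τ h
    unfold vM
    rw [Finset.map_eq_image, Finset.map_eq_image]
    exact Finset.image_congr (fun i hi => h i hi)
  have he : ∀ (S : Finset ℕ) (τ : Equiv.Perm ℕ) (H : Finset (Sym2 ℕ)), H ⊆ Ed S →
      (∀ i ∈ S, π i = τ i) → H.map (eM π) = H.map (eM τ) := by
    intro S τ H hH h
    rw [Finset.map_eq_image, Finset.map_eq_image]
    refine Finset.image_congr (fun e he => ?_)
    have := (mem_Ed.1 (hH he)).1
    induction e using Sym2.ind with
    | _ a b =>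
      rw [eM_mk, eM_mk, h a (this a (Sym2.mem_mk_left a b)), h b (this b (Sym2.mem_mk_right a b))]
  refine Prod.ext ?_ ?_
  · show vM π (g1.1 ∪ g2.1) = vM π1 g1.1 ∪ vM π2 g2.1
    rw [← hv _ _ hp1, ← hv _ _ hp2]
    exact Finset.map_union _ _
  · show (g1.2 ∪ g2.2).map _ = g1.2.map _ ∪ g2.2.map _
    rw [← he _ _ _ v1 hp1, ← he _ _ _ v2 hp2]
    exact Finset.map_union _ _

/-- every pair of types has a disjoint pair of representatives -/
lemma exists_disj (g1 g2 : LG) : ∃ g2', (⟦g2'⟧ : Q) = ⟦g2⟧ ∧ Disjoint g1.1 g2'.1 := by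
  obtain ⟨N, hN⟩ : ∃ N, ∀ x ∈ g1.1, x < N :=
    ⟨g1.1.sup id + 1, fun x hx => Nat.lt_succ_of_le (Finset.le_sup (f := id) hx)⟩
  obtain ⟨π, hπ⟩ := ext_perm g2.1 (fun i => i + N) (fun i _ j _ h => Nat.add_right_cancel h)
  refine ⟨pm π g2, (q_eq.2 ⟨π, rfl⟩).symm, ?_⟩
  rw [Finset.disjoint_left]
  intro x hx hx'
  obtain ⟨i, hi, rfl⟩ := Finset.mem_map.1 hx'
  have h1 := hN _ hx
  have h2 : π i = i + N := hπ i hi
  have h3 : π i < N := h1
  omega

lemma va_of_q {g h : LG} (e : (⟦g⟧ : Q) = ⟦h⟧) (hg : Va g) : Va h := by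
  obtain ⟨π, rfl⟩ := q_eq.1 e
  exact va_pm hg π

lemma conv_del {g1 g2 : LG} (v1 : Va g1) (v2 : Va g2) (hd : Disjoint g1.1 g2.1) :
    ∃ k : ℚ, k ≠ 0 ∧ ∀ h, Va h → conv (del ⟦g1⟧) (del ⟦g2⟧) h = k * del ⟦du g1 g2⟧ h := by
  refine ⟨conv (del ⟦g1⟧) (del ⟦g2⟧) (du g1 g2), ?_, ?_⟩
  · apply ne_of_gt
    unfold conv
    refine Finset.sum_pos' (fun A _ => ?_) ⟨g1.1, ?_, ?_⟩
    · unfold del
      split_ifs <;> norm_num
    · rw [Finset.mem_filter, Finset.mem_powerset]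
      exact ⟨Finset.subset_union_left, cl_union hd v1 v2⟩
    · have e1 : (g1.1, res g1.1 (du g1 g2).2) = g1 :=
        Prod.ext rfl (res_union_left hd v1 v2)
      have e0 : (du g1 g2).1 \ g1.1 = g2.1 := by
        show (g1.1 ∪ g2.1) \ g1.1 = g2.1
        rw [Finset.union_sdiff_left]
        exact Finset.sdiff_eq_self_of_disjoint hd.symm
      have e2 : ((du g1 g2).1 \ g1.1, res ((du g1 g2).1 \ g1.1) (du g1 g2).2) = g2 := by
        rw [e0]
        refine Prod.ext rfl ?_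
        show res g2.1 (g1.2 ∪ g2.2) = g2.2
        rw [Finset.union_comm]
        exact res_union_left hd.symm v2 v1
      rw [e1, e2]
      simp [del]
  · intro h hv
    by_cases hq : (⟦h⟧ : Q) = ⟦du g1 g2⟧
    · obtain ⟨π, rfl⟩ := q_eq.1 hq.symm
      rw [conv_inv _ _ (del_inv _) (del_inv _), del, if_pos hq, mul_one]
    · rw [del, if_neg hq, mul_zero]
      apply Finset.sum_eq_zero
      intro A hA
      rw [Finset.mem_filter, Finset.mem_powerset] at hA
      by_contra hne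
      have h1 : del ⟦g1⟧ (A, res A h.2) ≠ 0 := left_ne_zero_of_mul hne
      have h2 : del ⟦g2⟧ (h.1 \ A, res (h.1 \ A) h.2) ≠ 0 := right_ne_zero_of_mul hne
      have e1 : (⟦(A, res A h.2)⟧ : Q) = ⟦g1⟧ := by
        by_contra hc; exact h1 (by rw [del, if_neg hc])
      have e2 : (⟦(h.1 \ A, res (h.1 \ A) h.2)⟧ : Q) = ⟦g2⟧ := by
        by_contra hc; exact h2 (by rw [del, if_neg hc])
      apply hq
      have h3 := glue (g1 := (A, res A h.2)) (g2 := (h.1 \ A, res (h.1 \ A) h.2)) (h1 := g1)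
        (h2 := g2) (res_sub hv) (res_sub hv) Finset.disjoint_sdiff hd e1 e2
      rw [← h3]
      congr 1
      refine Prod.ext ?_ ?_
      · show h.1 = A ∪ (h.1 \ A)
        rw [Finset.union_sdiff_of_subset hA.1]
      · exact (res_union_res hv hA.2).symm

end Pool.Agent.H4.Switch
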