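import Pool.Agent.H4.SwitchC

set_option autoImplicit false

namespace Pool.Agent.H4.Switch

open scoped Classical

/-- connected -/
def Conn (g : LG) : Prop := g.1.Nonempty ∧ ∀ A ⊆ g.1, Cl A g.2 → A = ∅ ∨ A = g.1

lemma conn_pm (π : Equiv.Perm ℕ) (g : LG) (h : Conn g) : Conn (pm π g) := by
  refine ⟨h.1.map, fun A hA hC => ?_⟩
  obtain ⟨u, hu, rfl⟩ := Finset.subset_map_iff.1 hA
  rcases h.2 u hu ((Cl_vM π u g.2).1 hC) with rfl | rfl
  · left; simp
  · right; rfl

lemma conn_of_q {g h : LG} (e : (⟦g⟧ : Q) = ⟦h⟧) (hg : Conn g) : Conn h := by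
  obtain ⟨π, rfl⟩ := q_eq.1 e
  exact conn_pm π g hg

/-- number of components of type `q` -/
noncomputable def cnt (q : Q) (g : LG) : ℚ := conv (del q) (fun _ => 1) g

lemma cnt_inv (q : Q) : Inv (cnt q) := conv_inv _ _ (del_inv q) (fun _ _ => rfl)

lemma cnt_of_q (q : Q) {g h : LG} (e : (⟦g⟧ : Q) = ⟦h⟧) : cnt q g = cnt q h := by
  obtain ⟨π, rfl⟩ := q_eq.1 e
  exact (cnt_inv q π g).symm

lemma cnt_eq (q : Q) (g : LG) : cnt q g = ∑ A ∈ g.1.powerset.filter (fun A => Cl A g.2),
    del q (A, res A g.2) := by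
  unfold cnt conv
  simp

lemma cnt_conn {q0 : LG} (hq : Conn q0) {g : LG} (hv : Va g) (hg : Conn g) :
    cnt ⟦q0⟧ g = if (⟦g⟧ : Q) = ⟦q0⟧ then 1 else 0 := by
  rw [cnt_eq]
  have h1 : g.1.powerset.filter (fun A => Cl A g.2) = {∅, g.1} := by
    ext A
    rw [Finset.mem_filter, Finset.mem_powerset, Finset.mem_insert, Finset.mem_singleton]
    constructor
    · rintro ⟨h1, h2⟩
      exact hg.2 A h1 h2
    · rintro (rfl | rfl)
      · exact ⟨Finset.empty_subset _, fun e _ => Or.inr (by simp)⟩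
      · exact ⟨Finset.Subset.refl _, fun e he => Or.inl (mem_Ed.1 (hv he)).1⟩
  have h2 : (∅ : Finset ℕ) ≠ g.1 := hg.1.ne_empty.symm
  rw [h1, Finset.sum_pair h2]
  have h3 : del ⟦q0⟧ ((∅ : Finset ℕ), res ∅ g.2) = 0 := by
    rw [del, if_neg]
    intro h
    have := (conn_of_q h.symm hq).1
    exact Finset.not_nonempty_empty this
  have h4 : (g.1, res g.1 g.2) = g := by
    refine Prod.ext rfl ?_
    show res g.1 g.2 = g.2
    ext e
    rw [mem_res]
    exact ⟨fun h => h.1, fun h => ⟨h, (mem_Ed.1 (hv h)).1⟩⟩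
  rw [h3, h4, zero_add]
  rfl

lemma conn_split {A B : Finset ℕ} {H1 H2 : Finset (Sym2 ℕ)} (hAB : Disjoint A B)
    (h1 : H1 ⊆ Ed A) (h2 : H2 ⊆ Ed B) (C : Finset ℕ) (hC : C ⊆ A ∪ B)
    (hCon : Conn (C, res C (H1 ∪ H2))) : C ⊆ A ∨ C ⊆ B := by
  have h3 : Cl (C ∩ A) (res C (H1 ∪ H2)) := by
    intro e he
    rw [mem_res, Finset.mem_union] at he
    rcases he.1 with h | h
    · left
      intro v hv
      exact Finset.mem_inter.2 ⟨he.2 v hv, (mem_Ed.1 (h1 h)).1 v hv⟩
    · right
      intro v hv hv'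
      exact Finset.disjoint_left.1 hAB (Finset.mem_inter.1 hv').2 ((mem_Ed.1 (h2 h)).1 v hv)
  rcases hCon.2 (C ∩ A) Finset.inter_subset_left h3 with h | h
  · right
    intro x hx
    rcases Finset.mem_union.1 (hC hx) with h' | h'
    · have : x ∈ C ∩ A := Finset.mem_inter.2 ⟨hx, h'⟩
      rw [h] at this
      exact absurd this (Finset.notMem_empty _)
    · exact h'
  · left
    exact Finset.inter_eq_left.1 h

lemma res_of_sub {A B C : Finset ℕ} {H1 H2 : Finset (Sym2 ℕ)} (hAB : Disjoint A B)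
    (h2 : H2 ⊆ Ed B) (hC : C ⊆ A) : res C (H1 ∪ H2) = res C H1 := by
  ext e
  rw [mem_res, mem_res, Finset.mem_union]
  constructor
  · rintro ⟨h | h, h'⟩
    · exact ⟨h, h'⟩
    · exfalso
      obtain ⟨v, hv⟩ := exists_mem e
      exact Finset.disjoint_left.1 hAB (hC (h' v hv)) ((mem_Ed.1 (h2 h)).1 v hv)
  · rintro ⟨h, h'⟩
    exact ⟨Or.inl h, h'⟩

lemma cl_of_sub {A B C : Finset ℕ} {H1 H2 : Finset (Sym2 ℕ)} (hAB : Disjoint A B)
    (h2 : H2 ⊆ Ed B) (hC : C ⊆ A) : Cl C (H1 ∪ H2) ↔ Cl C H1 := by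
  constructor
  · intro h e he
    exact h e (Finset.mem_union_left _ he)
  · intro h e he
    rcases Finset.mem_union.1 he with h' | h'
    · exact h e h'
    · right
      intro v hv hvC
      exact Finset.disjoint_left.1 hAB (hC hvC) ((mem_Ed.1 (h2 h')).1 v hv)

lemma cnt_du {q0 g1 g2 : LG} (hq : Conn q0) (v1 : Va g1) (v2 : Va g2)
    (hd : Disjoint g1.1 g2.1) : cnt ⟦q0⟧ (du g1 g2) = cnt ⟦q0⟧ g1 + cnt ⟦q0⟧ g2 := by
  rw [cnt_eq, cnt_eq, cnt_eq]
  have key1 : ∑ A ∈ g1.1.powerset.filter (fun A => Cl A g1.2), del ⟦q0⟧ (A, res A g1.2) =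
      ∑ A ∈ g1.1.powerset.filter (fun A => Cl A (du g1 g2).2),
        del ⟦q0⟧ (A, res A (du g1 g2).2) := by
    refine Finset.sum_congr ?_ ?_
    · refine Finset.filter_congr (fun A hA => ?_)
      exact (cl_of_sub hd v2 (Finset.mem_powerset.1 hA)).symm
    · intro A hA
      rw [Finset.mem_filter, Finset.mem_powerset] at hA
      rw [show (du g1 g2).2 = g1.2 ∪ g2.2 from rfl, res_of_sub hd v2 hA.1]
  have key2 : ∑ A ∈ g2.1.powerset.filter (fun A => Cl A g2.2), del ⟦q0⟧ (A, res A g2.2) =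
      ∑ A ∈ g2.1.powerset.filter (fun A => Cl A (du g1 g2).2),
        del ⟦q0⟧ (A, res A (du g1 g2).2) := by
    refine Finset.sum_congr ?_ ?_
    · refine Finset.filter_congr (fun A hA => ?_)
      rw [show (du g1 g2).2 = g2.2 ∪ g1.2 from Finset.union_comm _ _]
      exact (cl_of_sub hd.symm v1 (Finset.mem_powerset.1 hA)).symm
    · intro A hA
      rw [Finset.mem_filter, Finset.mem_powerset] at hA
      rw [show (du g1 g2).2 = g2.2 ∪ g1.2 from Finset.union_comm _ _,
        res_of_sub hd.symm v1 hA.1]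
  rw [key1, key2, ← Finset.sum_union_inter]
  have h0 : ∑ A ∈ (g1.1.powerset.filter (fun A => Cl A (du g1 g2).2)) ∩
      (g2.1.powerset.filter (fun A => Cl A (du g1 g2).2)),
        del ⟦q0⟧ (A, res A (du g1 g2).2) = 0 := by
    apply Finset.sum_eq_zero
    intro A hA
    rw [Finset.mem_inter, Finset.mem_filter, Finset.mem_filter, Finset.mem_powerset,
      Finset.mem_powerset] at hA
    have hA0 : A = ∅ := by
      rw [Finset.eq_empty_iff_forall_notMem]
      intro x hx
      exact Finset.disjoint_left.1 hd (hA.1.1 hx) (hA.2.1 hx)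
    rw [del, if_neg]
    intro h
    have := (conn_of_q h.symm hq).1
    rw [hA0] at this
    exact Finset.not_nonempty_empty this
  rw [h0, add_zero]
  symm
  apply Finset.sum_subset
  · intro A hA
    rw [Finset.mem_union, Finset.mem_filter, Finset.mem_filter, Finset.mem_powerset,
      Finset.mem_powerset] at hA
    rw [Finset.mem_filter, Finset.mem_powerset]
    rcases hA with hA | hA
    · exact ⟨hA.1.trans Finset.subset_union_left, hA.2⟩
    · exact ⟨hA.1.trans Finset.subset_union_right, hA.2⟩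
  · intro A hA hA'
    rw [Finset.mem_filter, Finset.mem_powerset] at hA
    rw [del, if_neg]
    intro h
    apply hA'
    have h3 := conn_split hd v1 v2 A hA.1 (conn_of_q h.symm hq)
    rw [Finset.mem_union, Finset.mem_filter, Finset.mem_filter, Finset.mem_powerset,
      Finset.mem_powerset]
    rcases h3 with h3 | h3
    · exact Or.inl ⟨h3, hA.2⟩
    · exact Or.inr ⟨h3, hA.2⟩

/-- existence of a component -/
lemma exists_comp (g : LG) (hg : g.1.Nonempty) (hv : Va g) :
    ∃ A ⊆ g.1, Cl A g.2 ∧ Conn (A, res A g.2) := by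
  have hne : (g.1.powerset.filter (fun A => Cl A g.2 ∧ A.Nonempty)).Nonempty := by
    refine ⟨g.1, ?_⟩
    rw [Finset.mem_filter, Finset.mem_powerset]
    exact ⟨Finset.Subset.refl _, fun e he => Or.inl (mem_Ed.1 (hv he)).1, hg⟩
  obtain ⟨A, hA, hmin⟩ := Finset.exists_min_image _ Finset.card hne
  rw [Finset.mem_filter, Finset.mem_powerset] at hA
  refine ⟨A, hA.1, hA.2.1, hA.2.2, fun B hB hC => ?_⟩
  by_cases hB0 : B = ∅
  · exact Or.inl hB0
  · right
    apply Finset.eq_of_subset_of_card_le hB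
    apply hmin
    rw [Finset.mem_filter, Finset.mem_powerset]
    refine ⟨hB.trans hA.1, ?_, Finset.nonempty_iff_ne_empty.2 hB0⟩
    intro e he
    rcases hA.2.1 e he with h | h
    · exact hC e (mem_res.2 ⟨he, h⟩)
    · exact Or.inr (fun v hv hvB => h v hv (hB hvB))

/-- even graphs -/
def Ev (g : LG) : Prop := ∀ v, Even (g.2.filter (fun e => v ∈ e)).card

lemma ev_pm (π : Equiv.Perm ℕ) (g : LG) (h : Ev g) : Ev (pm π g) := by
  intro v
  obtain ⟨v, rfl⟩ := π.surjective v
  show Even ((g.2.map (eM π)).filter (fun e => π v ∈ e)).card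
  rw [Finset.filter_map, Finset.card_map]
  have : (g.2.filter ((fun e => π v ∈ e) ∘ (eM π))) = g.2.filter (fun e => v ∈ e) := by
    refine Finset.filter_congr (fun e _ => ?_)
    induction e using Sym2.ind with
    | _ a b => simp [eM_mk]
  rw [this]
  exact h v

lemma ev_of_q {g h : LG} (e : (⟦g⟧ : Q) = ⟦h⟧) (hg : Ev g) : Ev h := by
  obtain ⟨π, rfl⟩ := q_eq.1 e
  exact ev_pm π g hg

lemma ev_res {A : Finset ℕ} {g : LG} (hE : Ev g) (hC : Cl A g.2) :
    Ev (A, res A g.2) := by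
  intro v
  show Even ((res A g.2).filter (fun e => v ∈ e)).card
  by_cases hvA : v ∈ A
  · have : (res A g.2).filter (fun e => v ∈ e) = g.2.filter (fun e => v ∈ e) := by
      ext e
      rw [Finset.mem_filter, Finset.mem_filter, mem_res]
      constructor
      · rintro ⟨⟨h1, _⟩, h2⟩; exact ⟨h1, h2⟩
      · rintro ⟨h1, h2⟩
        refine ⟨⟨h1, ?_⟩, h2⟩
        rcases hC e h1 with h | h
        · exact h
        · exact absurd hvA (h v h2)
    rw [this]
    exact hE v
  · have : (res A g.2).filter (fun e => v ∈ e) = ∅ := by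
      rw [Finset.filter_eq_empty_iff]
      intro e he hve
      exact hvA ((mem_res.1 he).2 v hve)
    rw [this]
    simp

lemma cl_compl {A S : Finset ℕ} {H : Finset (Sym2 ℕ)} (hH : H ⊆ Ed S) (hC : Cl A H) :
    Cl (S \ A) H := by
  intro e he
  rcases hC e he with h | h
  · right
    intro v hv hv'
    exact (Finset.mem_sdiff.1 hv').2 (h v hv)
  · left
    intro v hv
    exact Finset.mem_sdiff.2 ⟨(mem_Ed.1 (hH he)).1 v hv, h v hv⟩

/-- switching sign of an even graph is trivial -/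
lemma eps_switch {X : Set ℕ} {σ : Equiv.Perm ℕ}
    (hσ : ∀ i j, i ≠ j → (R (σ i) (σ j) ↔ (R i j ↔ (i ∈ X ↔ j ∈ X))))
    {S : Finset ℕ} {H : Finset (Sym2 ℕ)} (hH : H ⊆ Ed S) (hE : Ev (S, H)) :
    eps (H.map (eM σ)) = eps H := by
  have h1 : ∀ e ∈ H, rho (eM σ e) = rho e * ∏ v ∈ S, (if v ∈ e then (if v ∈ X then -1 else 1) else 1) := by
    intro e he
    have he' := hH he
    induction e using Sym2.ind with
    | _ a b =>
      rw [mem_Ed'] at he'
      obtain ⟨ha, hb, hab⟩ := he'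
      have h2 : ∏ v ∈ S, (if v ∈ s(a, b) then (if v ∈ X then (-1 : ℚ) else 1) else 1) =
          (if a ∈ X then -1 else 1) * (if b ∈ X then -1 else 1) := by
        rw [← Finset.prod_filter]
        have : S.filter (fun v => v ∈ s(a, b)) = {a, b} := by
          ext v
          simp only [Finset.mem_filter, Sym2.mem_iff, Finset.mem_insert, Finset.mem_singleton]
          constructor
          · rintro ⟨_, h⟩; exact h
          · rintro (rfl | rfl)
            · exact ⟨ha, Or.inl rfl⟩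
            · exact ⟨hb, Or.inr rfl⟩
        rw [this, Finset.prod_pair hab]
      rw [h2, eM_mk]
      unfold rho
      rw [mem_RS, mem_RS, hσ a b hab]
      by_cases e1 : R a b <;> by_cases e2 : a ∈ X <;> by_cases e3 : b ∈ X <;> simp [e1, e2, e3]
  unfold eps
  rw [Finset.prod_map, Finset.prod_congr rfl h1, Finset.prod_mul_distrib]
  have h3 : ∏ e ∈ H, ∏ v ∈ S, (if v ∈ e then (if v ∈ X then (-1 : ℚ) else 1) else 1) = 1 := by
    rw [Finset.prod_comm]
    apply Finset.prod_eq_one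
    intro v _
    rw [← Finset.prod_filter, Finset.prod_const]
    split_ifs
    · exact (hE v).neg_one_pow
    · exact one_pow _
  rw [h3, mul_one]

end Pool.Agent.H4.Switch
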