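import Pool.Agent.H4.SwitchD

set_option autoImplicit false

namespace Pool.Agent.H4.Switch

open scoped Classical

/-- invariance of a function on finite sets under the switching group -/
def GInv (F : Finset ℕ → ℚ) : Prop := ∀ σ : Equiv.Perm ℕ,
  (∃ X : Set ℕ, ∀ i j, i ≠ j → (R (σ i) (σ j) ↔ (R i j ↔ (i ∈ X ↔ j ∈ X)))) →
    ∀ S, F (vM σ S) = F S

lemma F_switch {F : Finset ℕ → ℚ} (hF : GInv F) (S X : Finset ℕ) (π π' : Equiv.Perm ℕ)
    (h : ∀ i ∈ S, ∀ j ∈ S, i ≠ j → (R (π' i) (π' j) ↔ (R (π i) (π j) ↔ (i ∈ X ↔ j ∈ X)))) :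
    F (vM π S) = F (vM π' S) := by
  obtain ⟨σ, hσ1, hσ2⟩ := hom_ext (vM π X) (S.image (fun i => (π i, π' i))) (by
    intro p hp q hq
    rw [Finset.mem_image] at hp hq
    obtain ⟨i, hi, rfl⟩ := hp
    obtain ⟨j, hj, rfl⟩ := hq
    refine ⟨by simp, fun hne => ?_⟩
    have hij : i ≠ j := fun e => hne (by rw [e])
    show R (π' i) (π' j) ↔ (R (π i) (π j) ↔ (π i ∈ vM π X ↔ π j ∈ vM π X))
    rw [mem_vM, mem_vM]
    exact h i hi j hj hij)
  have h1 := hF σ ⟨(vM π X : Finset ℕ), fun i j hij => by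
    simpa using hσ2 i j hij⟩ (vM π S)
  rw [← h1]
  congr 1
  unfold vM
  rw [Finset.map_map, Finset.map_eq_image, Finset.map_eq_image]
  refine Finset.image_congr (fun i hi => ?_)
  exact hσ1 (π i, π' i) (Finset.mem_image_of_mem _ hi)

/-- the function on labelled graphs associated with `F` -/
noncomputable def Ft (F : Finset ℕ → ℚ) (S : Finset ℕ) (Y : Finset (Sym2 ℕ)) : ℚ :=
  F (vM (exists_real S Y).choose S)

lemma Ft_eq {F : Finset ℕ → ℚ} (hF : GInv F) {S : Finset ℕ} {Y : Finset (Sym2 ℕ)}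
    {π : Equiv.Perm ℕ} (h : Real π S Y) : Ft F S Y = F (vM π S) := by
  unfold Ft
  have h1 := (exists_real S Y).choose_spec
  refine F_switch hF S ∅ _ _ (fun i hi j hj hij => ?_)
  have e1 := h s(i, j) (mem_Ed'.2 ⟨hi, hj, hij⟩)
  have e2 := h1 s(i, j) (mem_Ed'.2 ⟨hi, hj, hij⟩)
  rw [eM_mk, mem_RS] at e1 e2
  simp only [Finset.notMem_empty, iff_true, iff_self]
  rw [e1, e2]

lemma Ft_switch {F : Finset ℕ → ℚ} (hF : GInv F) (S : Finset ℕ) (Y : Finset (Sym2 ℕ))
    (v : ℕ) : Ft F S (symmDiff Y ((Ed S).filter (fun e => v ∈ e))) = Ft F S Y := by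
  obtain ⟨π, hπ⟩ := exists_real S Y
  obtain ⟨π', hπ'⟩ := exists_real S (symmDiff Y ((Ed S).filter (fun e => v ∈ e)))
  rw [Ft_eq hF hπ, Ft_eq hF hπ']
  symm
  refine F_switch hF S {v} _ _ (fun i hi j hj hij => ?_)
  have he : s(i, j) ∈ Ed S := mem_Ed'.2 ⟨hi, hj, hij⟩
  have e1 := hπ s(i, j) he
  have e2 := hπ' s(i, j) he
  rw [eM_mk, mem_RS] at e1 e2
  rw [e1, e2, Finset.mem_symmDiff, Finset.mem_filter, Sym2.mem_iff, Finset.mem_singleton,
    Finset.mem_singleton]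
  by_cases h1 : v = i
  · subst h1
    have h2 : ¬ j = v := fun h => hij h.symm
    by_cases h3 : s(v, j) ∈ Y <;> simp [h3, he, h2]
  · have h1' : ¬ i = v := fun h => h1 h.symm
    by_cases h2 : v = j
    · subst h2
      by_cases h3 : s(i, v) ∈ Y <;> simp [h3, he, h1']
    · have h2' : ¬ j = v := fun h => h2 h.symm
      by_cases h3 : s(i, j) ∈ Y <;> simp [h3, h1, h2, h1', h2']

/-- Fourier coefficients -/
noncomputable def Fc (F : Finset ℕ → ℚ) (g : LG) : ℚ :=
  (1 / 2 ^ (Ed g.1).card) * ∑ Y ∈ (Ed g.1).powerset, Ft F g.1 Y * sg Y g.2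

lemma Fc_inv {F : Finset ℕ → ℚ} (hF : GInv F) : Inv (Fc F) := by
  rintro τ ⟨S, H⟩
  show (1 / 2 ^ (Ed (vM τ S)).card) * ∑ Y ∈ (Ed (vM τ S)).powerset,
    Ft F (vM τ S) Y * sg Y (H.map (eM τ)) =
    (1 / 2 ^ (Ed S).card) * ∑ Y ∈ (Ed S).powerset, Ft F S Y * sg Y H
  rw [Ed_vM, Finset.card_map, sum_powerset_map]
  congr 1
  refine Finset.sum_congr rfl (fun Y _ => ?_)
  congr 1
  · obtain ⟨π, hπ⟩ := exists_real S Y
    have hπ' : Real (π * τ⁻¹) (vM τ S) (Y.map (eM τ)) := by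
      intro e he
      rw [Ed_vM, Finset.mem_map] at he
      obtain ⟨e, he, rfl⟩ := he
      rw [Finset.mem_map' (eM τ), ← hπ e he]
      induction e using Sym2.ind with
      | _ a b => simp [eM_mk]
    rw [Ft_eq hF hπ, Ft_eq hF hπ']
    congr 1
    unfold vM
    rw [Finset.map_map, Finset.map_eq_image, Finset.map_eq_image]
    refine Finset.image_congr (fun i _ => ?_)
    simp
  · unfold sg
    rw [Finset.prod_map]
    refine Finset.prod_congr rfl (fun e _ => ?_)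
    simp only [Finset.mem_map' (eM τ)]

lemma Fc_even {F : Finset ℕ → ℚ} (hF : GInv F) (g : LG) (hv : Va g) (hg : ¬ Ev g) :
    Fc F g = 0 := by
  obtain ⟨S, H⟩ := g
  unfold Ev at hg
  push Not at hg
  obtain ⟨v, hv'⟩ := hg
  change ¬ Even (H.filter (fun e => v ∈ e)).card at hv'
  change H ⊆ Ed S at hv
  have hodd : Odd (H.filter (fun e => v ∈ e)).card := Nat.not_even_iff_odd.1 hv'
  obtain ⟨st, hst⟩ : ∃ st, st = (Ed S).filter (fun e => v ∈ e) := ⟨_, rfl⟩
  have h1 : sg st H = -1 := by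
    unfold sg
    rw [Finset.prod_ite, Finset.prod_const_one, mul_one, Finset.prod_const]
    have : H.filter (fun e => e ∈ st) = H.filter (fun e => v ∈ e) := by
      refine Finset.filter_congr (fun e he => ?_)
      rw [hst, Finset.mem_filter]
      exact ⟨fun h => h.2, fun h => ⟨hv he, h⟩⟩
    rw [this]
    exact hodd.neg_one_pow
  have h2 : ∀ Y, sg (symmDiff Y st) H = sg Y H * sg st H := by
    intro Y
    unfold sg
    rw [← Finset.prod_mul_distrib]
    refine Finset.prod_congr rfl (fun e _ => ?_)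
    simp only [Finset.mem_symmDiff]
    by_cases e1 : e ∈ Y <;> by_cases e2 : e ∈ st <;> simp [e1, e2]
  have h3 : ∑ Y ∈ (Ed S).powerset, Ft F S Y * sg Y H =
      ∑ Y ∈ (Ed S).powerset, Ft F S (symmDiff Y st) * sg (symmDiff Y st) H := by
    symm
    refine Finset.sum_nbij' (fun Y => symmDiff Y st) (fun Y => symmDiff Y st) ?_ ?_ ?_ ?_ ?_
    · intro Y hY
      rw [Finset.mem_powerset] at hY ⊢
      intro e he
      rw [Finset.mem_symmDiff] at he
      rcases he with he | he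
      · exact hY he.1
      · rw [hst] at he; exact (Finset.mem_filter.1 he.1).1
    · intro Y hY
      rw [Finset.mem_powerset] at hY ⊢
      intro e he
      rw [Finset.mem_symmDiff] at he
      rcases he with he | he
      · exact hY he.1
      · rw [hst] at he; exact (Finset.mem_filter.1 he.1).1
    · intro Y _; exact symmDiff_symmDiff_cancel_right _ _
    · intro Y _; exact symmDiff_symmDiff_cancel_right _ _
    · intro Y _; rfl
  have h4 : ∑ Y ∈ (Ed S).powerset, Ft F S (symmDiff Y st) * sg (symmDiff Y st) H =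
      - ∑ Y ∈ (Ed S).powerset, Ft F S Y * sg Y H := by
    rw [← Finset.sum_neg_distrib]
    refine Finset.sum_congr rfl (fun Y _ => ?_)
    rw [h2, h1, hst, Ft_switch hF]
    ring
  have h5 : ∑ Y ∈ (Ed S).powerset, Ft F S Y * sg Y H = 0 := by linarith
  show (1 / 2 ^ (Ed S).card) * ∑ Y ∈ (Ed S).powerset, Ft F S Y * sg Y H = 0
  rw [h5, mul_zero]

lemma Fc_sy {F : Finset ℕ → ℚ} (hF : GInv F) (S : Finset ℕ) : Sy (Fc F) S = F S := by
  obtain ⟨Z, hZ⟩ : ∃ Z, Z = (Ed S).filter (fun e => e ∈ RS) := ⟨_, rfl⟩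
  have hZs : Z ⊆ Ed S := by rw [hZ]; exact Finset.filter_subset _ _
  have hreal : Real 1 S Z := by
    intro e he
    rw [hZ, Finset.mem_filter]
    have : eM 1 e = e := by
      induction e using Sym2.ind with
      | _ a b => rfl
    rw [this]
    exact ⟨fun h => ⟨he, h⟩, fun h => h.2⟩
  have h1 : ∀ H ∈ (Ed S).powerset, Fc F (S, H) * eps H =
      ∑ Y ∈ (Ed S).powerset, (1 / 2 ^ (Ed S).card) * Ft F S Y * (sg Y H * sg Z H) := by
    intro H hH
    have h2 : eps H = sg Z H := by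
      unfold eps sg
      refine Finset.prod_congr rfl (fun e he => ?_)
      unfold rho
      rw [hZ]
      simp [Finset.mem_powerset.1 hH he]
    unfold Fc
    rw [h2, mul_assoc, Finset.sum_mul, Finset.mul_sum]
    refine Finset.sum_congr rfl (fun Y _ => ?_)
    ring
  unfold Sy
  rw [Finset.sum_congr rfl h1, Finset.sum_comm]
  have h2 : ∀ Y ∈ (Ed S).powerset, ∑ H ∈ (Ed S).powerset,
      (1 / 2 ^ (Ed S).card) * Ft F S Y * (sg Y H * sg Z H) =
      (if Z = Y then (1 / 2 ^ (Ed S).card) * Ft F S Y * 2 ^ (Ed S).card else 0) := by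
    intro Y hY
    rw [← Finset.mul_sum, orth (Ed S) Y Z (Finset.mem_powerset.1 hY) hZs]
    by_cases h : Y = Z
    · rw [if_pos h, if_pos h.symm]
    · rw [if_neg h, if_neg (fun h' => h h'.symm), mul_zero]
  rw [Finset.sum_congr rfl h2, Finset.sum_ite_eq, if_pos (Finset.mem_powerset.2 hZs),
    Ft_eq hF hreal]
  have h3 : vM 1 S = S := by
    ext i
    exact mem_vM (π := 1)
  rw [h3]
  field_simp

lemma Fc_bound {F : Finset ℕ → ℚ} {N : ℕ} (hN : ∀ S : Finset ℕ, N ≤ S.card → F S = 0)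
    (g : LG) (hg : N ≤ g.1.card) : Fc F g = 0 := by
  unfold Fc
  rw [Finset.sum_eq_zero, mul_zero]
  intro Y _
  unfold Ft
  rw [hN, zero_mul]
  unfold vM
  rwa [Finset.card_map]

lemma Sy_GInv {c : LG → ℚ} (hc : Inv c) (hE : ∀ g, Va g → ¬ Ev g → c g = 0) : GInv (Sy c) := by
  rintro σ ⟨X, hX⟩ S
  rw [Sy_vM c hc]
  unfold Sy
  refine Finset.sum_congr rfl (fun H hH => ?_)
  rw [Finset.mem_powerset] at hH
  by_cases h : Ev (S, H)
  · rw [eps_switch hX hH h]
  · have h0 : c (S, H) = 0 := hE (S, H) hH h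
    rw [h0, zero_mul, zero_mul]

end Pool.Agent.H4.Switch
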